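import Pool.Agent.W_MP_8d5d9c_nt.Build

set_option autoImplicit false

open MeasureTheory Filter Topology

namespace Pool.Agent.W_MP_8d5d9c_nt

lemma closeTo_of (ω : ℕ → ℝ) (A : ℕ → ℕ → ℕ → ℕ → ℕ → ℕ)
    (hω : ∀ m, Irrational (ω m) ∧ 0 < ω m ∧ ω m < 1) {X : ℕ → ℝ} (hX : ∀ n, 0 < X n ∧ X n < 1)
    (h : ∀ n, X n = 1 / ((dd ω A n : ℝ) + X (n+1))) : CloseTo ω X := by
  intro m j hj
  obtain ⟨hw1, hw2, hw3⟩ := hω m
  have key := close (m - j) (fun i => X (tri m + j + i)) (fun i => T^[j+i] (ω m))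
    (fun i => dig (ω m) (j + i)) (fun i _ => hX _) (fun i _ => orbit_mem hw1 hw2 hw3 _)
    (fun i _ => dig_pos hw1 hw2 hw3 _)
    (fun i hi => by
      have h1 := h (tri m + j + i)
      have h2 := dd_block ω A m (j + i) (by omega)
      rw [← add_assoc] at h2
      rw [h2] at h1
      exact h1)
    (fun i _ => orbit_eq hw1 hw2 hw3 (j + i))
  simpa using key

lemma tri_pos {m : ℕ} (hm : 0 < m) : 0 < tri m := by
  obtain ⟨k, rfl⟩ : ∃ k, m = k + 1 := ⟨m - 1, by omega⟩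
  simp [tri]

lemma m_div_tri : Tendsto (fun m : ℕ => (m:ℝ) / (tri m : ℝ)) atTop (𝓝 0) := by
  have h1 : Tendsto (fun m : ℕ => (2:ℝ) * (1 / ((m:ℝ) + 1))) atTop (𝓝 0) := by
    have := (tendsto_one_div_add_atTop_nhds_zero_nat (𝕜 := ℝ)).const_mul 2
    rwa [mul_zero] at this
  refine h1.congr' ?_
  filter_upwards [eventually_gt_atTop 0] with m hm
  have hmR : (0:ℝ) < m := by exact_mod_cast hm
  rw [tri_cast]
  field_simp

lemma tri_tendsto : Tendsto tri atTop atTop := by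
  apply tendsto_atTop_mono _ tendsto_id
  intro m
  induction m with
  | zero => simp [tri]
  | succ m ih => simp only [tri, id] at *; omega

lemma cX_mono (X : ℕ → ℝ) (t : ℝ) : Monotone (cX X t) := by
  apply monotone_nat_of_le_succ
  intro n
  unfold cX
  rw [Finset.sum_range_succ]
  have : 0 ≤ (if X n < t then (1:ℝ) else 0) := by split_ifs <;> norm_num
  linarith

lemma freq_tri (τ : ℕ → ℝ) (hτ : DenseRange τ) (X : ℕ → ℝ) (h : CloseTo (om τ) X) (t : ℝ) :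
    Tendsto (fun m : ℕ => cX X t (tri m) / (tri m : ℝ)) atTop (𝓝 (G t)) := by
  rw [Metric.tendsto_atTop]
  intro ε hε
  have hcont : ContinuousAt G t := G_cont.continuousAt
  rw [Metric.continuousAt_iff] at hcont
  obtain ⟨δ, hδ, hcont⟩ := hcont (ε/2) (by linarith)
  -- upper test point
  obtain ⟨κ₁, hκ₁⟩ : ∃ κ, τ κ ∈ Set.Ioo t (t + δ) :=
    hτ.exists_mem_open isOpen_Ioo (Set.nonempty_Ioo.mpr (by linarith : t < t + δ))
  obtain ⟨κ₂, hκ₂⟩ : ∃ κ, τ κ ∈ Set.Ioo (t - δ) t :=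
    hτ.exists_mem_open isOpen_Ioo (Set.nonempty_Ioo.mpr (by linarith : t - δ < t))
  have hG1 : |G (τ κ₁) - G t| < ε/2 := by
    have := hcont (x := τ κ₁) (by rw [Real.dist_eq, abs_lt]; constructor <;> linarith [hκ₁.1, hκ₁.2])
    rwa [Real.dist_eq] at this
  have hG2 : |G (τ κ₂) - G t| < ε/2 := by
    have := hcont (x := τ κ₂) (by rw [Real.dist_eq, abs_lt]; constructor <;> linarith [hκ₂.1, hκ₂.2])
    rwa [Real.dist_eq] at this
  obtain ⟨k, hk⟩ := exists_nat_gt (max (1 / (τ κ₁ - t)) (1 / (t - τ κ₂)))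
  have hk1 : 1 / (τ κ₁ - t) < k := lt_of_le_of_lt (le_max_left _ _) hk
  have hk2 : 1 / (t - τ κ₂) < k := lt_of_le_of_lt (le_max_right _ _) hk
  have hp1 : 0 < τ κ₁ - t := by linarith [hκ₁.1]
  have hp2 : 0 < t - τ κ₂ := by linarith [hκ₂.2]
  have hkpos : (0:ℝ) < k := lt_trans (by positivity) hk1
  have hk0 : 1 ≤ k := by
    have : 0 < k := by exact_mod_cast hkpos
    omega
  have hk1' : 1 / ((k:ℝ) + 1) ≤ τ κ₁ - t := by
    rw [div_le_iff₀ (by linarith)]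
    rw [div_lt_iff₀ hp1] at hk1
    nlinarith
  have hk2' : 1 / ((k:ℝ) + 1) < t - τ κ₂ := by
    rw [div_lt_iff₀ (by linarith)]
    rw [div_lt_iff₀ hp2] at hk2
    nlinarith
  -- error terms
  have e1 : Tendsto (fun m : ℕ => Dm τ m κ₁ / (tri m : ℝ) + k * ((m:ℝ) / (tri m : ℝ))) atTop (𝓝 0) := by
    have h1 := Dm_tendsto τ κ₁
    have h2 := m_div_tri.const_mul (k:ℝ)
    rw [mul_zero] at h2
    have h3 := h1.add h2
    rw [add_zero] at h3
    refine h3.congr fun m => ?_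
    rw [tri_cast]
  have e2 : Tendsto (fun m : ℕ => Dm τ m κ₂ / (tri m : ℝ) - (k + 1) * ((m:ℝ) / (tri m : ℝ))) atTop (𝓝 0) := by
    have h1 := Dm_tendsto τ κ₂
    have h2 := m_div_tri.const_mul ((k:ℝ) + 1)
    rw [mul_zero] at h2
    have h3 := h1.sub h2
    rw [sub_zero] at h3
    refine h3.congr fun m => ?_
    rw [tri_cast]
  rw [Metric.tendsto_atTop] at e1 e2
  obtain ⟨N1, hN1⟩ := e1 (ε/2) (by linarith)
  obtain ⟨N2, hN2⟩ := e2 (ε/2) (by linarith)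
  refine ⟨max (max N1 N2) 1, fun m hm => ?_⟩
  have hm1 := hN1 m (le_trans (le_trans (le_max_left _ _) (le_max_left _ _)) hm)
  have hm2 := hN2 m (le_trans (le_trans (le_max_right _ _) (le_max_left _ _)) hm)
  have hm0 : 0 < m := lt_of_lt_of_le Nat.one_pos (le_trans (le_max_right _ _) hm)
  have ht : (0:ℝ) < tri m := by exact_mod_cast tri_pos hm0
  have hmR : (0:ℝ) ≤ m := by positivity
  rw [Real.dist_eq, sub_zero, abs_lt] at hm1 hm2
  have u := upper τ X h t κ₁ k hk0 hk1' m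
  have l := lower τ X h t κ₂ k hk0 hk2' m
  have u' : cX X t (tri m) / (tri m : ℝ) ≤ G (τ κ₁) + (Dm τ m κ₁ / (tri m : ℝ) + k * ((m:ℝ) / (tri m : ℝ))) := by
    rw [div_le_iff₀ ht]
    have : (G (τ κ₁) + (Dm τ m κ₁ / (tri m : ℝ) + k * ((m:ℝ) / (tri m : ℝ)))) * (tri m : ℝ) =
        G (τ κ₁) * (tri m : ℝ) + Dm τ m κ₁ + k * m := by field_simp; ring
    rw [this]
    have := mul_nonneg (G_nonneg (τ κ₁)) hmR
    linarith
  have l' : G (τ κ₂) + (Dm τ m κ₂ / (tri m : ℝ) - (k + 1) * ((m:ℝ) / (tri m : ℝ))) ≤ cX X t (tri m) / (tri m : ℝ) := by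
    rw [le_div_iff₀ ht]
    have : (G (τ κ₂) + (Dm τ m κ₂ / (tri m : ℝ) - (k + 1) * ((m:ℝ) / (tri m : ℝ)))) * (tri m : ℝ) =
        G (τ κ₂) * (tri m : ℝ) + Dm τ m κ₂ - (k + 1) * m := by field_simp; ring
    rw [this]
    have := mul_le_mul_of_nonneg_right (G_le_one (τ κ₂)) hmR
    linarith
  rw [abs_lt] at hG1 hG2
  rw [Real.dist_eq, abs_lt]
  constructor <;> linarith [hG1.1, hG1.2, hG2.1, hG2.2, hm1.1, hm1.2, hm2.1, hm2.2]

lemma freq (τ : ℕ → ℝ) (hτ : DenseRange τ) (X : ℕ → ℝ) (h : CloseTo (om τ) X) (t : ℝ) :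
    Tendsto (fun N : ℕ => cX X t N / (N : ℝ)) atTop (𝓝 (G t)) := by
  apply tendsto_div_of_monotone_of_exists_subseq_tendsto_div _ _ (cX_mono X t)
  intro a ha
  refine ⟨tri, ?_, tri_tendsto, freq_tri τ hτ X h t⟩
  have h1 := m_div_tri
  have h2 : Tendsto (fun m : ℕ => (1:ℝ) + 2 * ((m:ℝ) / (tri m : ℝ))) atTop (𝓝 1) := by
    have := (h1.const_mul 2).const_add 1
    simpa using this
  filter_upwards [h2.eventually (gt_mem_nhds ha), eventually_gt_atTop 0] with m hm hm0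
  have ht : (0:ℝ) < tri m := by exact_mod_cast tri_pos hm0
  have hmR : (1:ℝ) ≤ m := by exact_mod_cast hm0
  simp only [tri]
  push_cast
  have h3 : (1 + 2 * ((m:ℝ) / (tri m : ℝ))) * (tri m : ℝ) = tri m + 2 * m := by field_simp
  have h4 : (1 + 2 * ((m:ℝ) / (tri m : ℝ))) * (tri m : ℝ) < a * tri m := mul_lt_mul_of_pos_right hm ht
  linarith

/-- existence of the counterexample -/
theorem main_exists : ∃ x : ℝ, (∀ n, 0 < T^[n] x ∧ T^[n] x < 1) ∧
    (∀ t, Tendsto (fun N : ℕ => cX (fun n => T^[n] x) t N / (N : ℝ)) atTop (𝓝 (G t))) ∧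
    ∀ B : ℕ, ∃ M : ℕ, B ≤ M ∧ 1 ≤ M ∧ ∀ n, 2 * M ≤ n → n < 3 * M →
      1/2 < T^[n] (Int.fract (√2 * x + √2)) := by
  classical
  set τ : ℕ → ℝ := TopologicalSpace.denseSeq ℝ with hτdef
  have hτ : DenseRange τ := TopologicalSpace.denseRange_denseSeq ℝ
  -- the choice function
  have hch : ∀ B p p' q q' : ℕ, ∃ A : ℕ, 1 ≤ A ∧ ((1 ≤ q ∧
      (((p:ℤ) * q' - p' * q = 1) ∨ ((p:ℤ) * q' - p' * q = -1))) →
      ∃ M : ℕ, B ≤ M ∧ 1 ≤ M ∧ ∀ z : ℝ, 0 < z → z < 1 → ∀ n, 2 * M ≤ n → n < 3 * M →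
      1/2 < T^[n] (Int.fract (√2 * (((p:ℝ) * (A + z) + p') / (q * (A + z) + q')) + √2))) := by
    intro B p p' q q'
    by_cases hh : 1 ≤ q ∧ (((p:ℤ) * q' - p' * q = 1) ∨ ((p:ℤ) * q' - p' * q = -1))
    · obtain ⟨A, hA1, hA2⟩ := run_lemma B p p' q q' hh.1 hh.2
      exact ⟨A, hA1, fun _ => hA2⟩
    · exact ⟨1, le_rfl, fun h => absurd h hh⟩
  choose A hA1 hA2 using hch
  have hω := om_spec τ
  have hdpos := dd_pos (om τ) A hω hA1
  obtain ⟨X, hX1, hX2⟩ := exists_seq (dd (om τ) A) hdpos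
  have hit := seq_iter hX1 hX2
  have hXfun : (fun n => T^[n] (X 0)) = X := funext hit
  refine ⟨X 0, ?_, ?_, ?_⟩
  · intro n; rw [hit]; exact hX1 n
  · intro t
    rw [hXfun]
    exact freq τ hτ X (closeTo_of (om τ) A hω hX1 hX2) t
  · intro B
    set n := tri B + B with hn
    set s := stt (om τ) A n with hs
    obtain ⟨M, hM1, hM2, hM3⟩ := hA2 B s.p s.p' s.q s.q' ⟨stt_q (om τ) A hω hA1 n, stt_det (om τ) A n⟩
    refine ⟨M, hM1, hM2, ?_⟩
    have hx := X_zero_eq (om τ) A hω hA1 hX1 hX2 n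
    have hd := dd_special (om τ) A B
    rw [← hn, ← hs] at hd
    rw [hX2 n, hd, ← hs] at hx
    have hz := hX1 (n+1)
    have hAr : (1:ℝ) ≤ (A B s.p s.p' s.q s.q' : ℝ) := by exact_mod_cast hA1 _ _ _ _ _
    have hq : (1:ℝ) ≤ s.q := by exact_mod_cast stt_q (om τ) A hω hA1 n
    have hx' : X 0 = ((s.p:ℝ) * (A B s.p s.p' s.q s.q' + X (n+1)) + s.p') /
        (s.q * (A B s.p s.p' s.q s.q' + X (n+1)) + s.q') := by
      rw [hx]
      have h1 : (0:ℝ) < (A B s.p s.p' s.q s.q' : ℝ) + X (n+1) := by linarith [hz.1]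
      have h2 : (s.q:ℝ) + s.q' * (1 / ((A B s.p s.p' s.q s.q' : ℝ) + X (n+1))) ≠ 0 := by positivity
      field_simp
    rw [hx']
    exact hM3 (X (n+1)) hz.1 hz.2

lemma cX_card (f : ℕ → ℝ) (t : ℝ) (N : ℕ) :
    (((Finset.range N).filter (fun n => f n < t)).card : ℝ) = cX f t N := by
  unfold cX
  rw [Finset.card_filter]
  push_cast
  rfl

lemma log_pos' : 0 < Real.log (1 + 1/2) / Real.log 2 := by
  apply div_pos
  · exact Real.log_pos (by norm_num)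
  · exact Real.log_pos (by norm_num)

/-- runs of linear length with large iterates contradict equidistribution. -/
lemma not_equi (y : ℝ) (hrun : ∀ B : ℕ, ∃ M : ℕ, B ≤ M ∧ 1 ≤ M ∧ ∀ n, 2 * M ≤ n → n < 3 * M →
      1/2 < T^[n] y) (κ : ℝ) (hκ : 0 < κ)
    (hlim : Tendsto (fun N : ℕ => cX (fun n => T^[n] y) (1/2) N / (N : ℝ)) atTop (𝓝 κ)) : False := by
  choose M hM1 hM2 hM3 using hrun
  have hMt : Tendsto M atTop atTop := tendsto_atTop_mono hM1 tendsto_id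
  have h2 : Tendsto (fun B => 2 * M B) atTop atTop :=
    tendsto_atTop_mono (fun B => by omega) hMt
  have h3 : Tendsto (fun B => 3 * M B) atTop atTop :=
    tendsto_atTop_mono (fun B => by omega) hMt
  have l2 := hlim.comp h2
  have l3 := hlim.comp h3
  have heq : ∀ B, cX (fun n => T^[n] y) (1/2) (3 * M B) = cX (fun n => T^[n] y) (1/2) (2 * M B) := by
    intro B
    unfold cX
    rw [show 3 * M B = 2 * M B + M B by ring, Finset.sum_range_add]
    have : ∑ x ∈ Finset.range (M B), (if T^[2 * M B + x] y < 1/2 then (1:ℝ) else 0) = 0 := by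
      apply Finset.sum_eq_zero
      intro x hx
      rw [Finset.mem_range] at hx
      have := hM3 B (2 * M B + x) (by omega) (by omega)
      rw [if_neg (by linarith)]
    rw [this, add_zero]
  have l3' : Tendsto (fun B => (2/3:ℝ) * (cX (fun n => T^[n] y) (1/2) (2 * M B) / ((2 * M B : ℕ) : ℝ)))
      atTop (𝓝 κ) := by
    refine l3.congr fun B => ?_
    simp only [Function.comp]
    rw [heq B]
    have : (1:ℝ) ≤ M B := by exact_mod_cast hM2 B
    push_cast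
    field_simp
  have l2' := l2.const_mul (2/3:ℝ)
  have := tendsto_nhds_unique l3' l2'
  linarith

end Pool.Agent.W_MP_8d5d9c_nt
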