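import Mathlib

set_option autoImplicit false

namespace Pool.Agent.W_MP_8d5d9c_nt

/-- The Gauss map. -/
noncomputable def T (y : ℝ) : ℝ := Int.fract (1 / y)

lemma T_nonneg (y : ℝ) : 0 ≤ T y := Int.fract_nonneg _
lemma T_lt_one (y : ℝ) : T y < 1 := Int.fract_lt_one _

lemma T_eq_of (d : ℕ) {z : ℝ} (hz0 : 0 ≤ z) (hz1 : z < 1) : T (1 / ((d:ℝ) + z)) = z := by
  unfold T
  rw [one_div_one_div, Int.fract_natCast_add]
  exact Int.fract_eq_self.mpr ⟨hz0, hz1⟩

lemma inv_mem {d : ℕ} (hd : 1 ≤ d) {z : ℝ} (hz0 : 0 < z) :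
    0 < 1 / ((d:ℝ) + z) ∧ 1 / ((d:ℝ) + z) < 1 := by
  have hd' : (1:ℝ) ≤ d := by exact_mod_cast hd
  constructor
  · positivity
  · rw [div_lt_one (by linarith)]
    linarith

/-- finite continued fraction with digits `c 0, ..., c (n-1)` and tail `t` -/
noncomputable def E (c : ℕ → ℕ) : ℕ → ℝ → ℝ
  | 0, t => t
  | n+1, t => E c n (1 / ((c n : ℝ) + t))

lemma T_iter_E (c : ℕ → ℕ) (hc : ∀ i, 1 ≤ c i) (n : ℕ) :
    ∀ t : ℝ, 0 < t → t < 1 → T^[n] (E c n t) = t := by
  induction n with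
  | zero => intro t _ _; rfl
  | succ n ih =>
    intro t h0 h1
    have h := inv_mem (hc n) h0
    rw [Function.iterate_succ_apply', E, ih _ h.1 h.2, T_eq_of _ h0.le h1]

lemma E_mem (c : ℕ → ℕ) (hc : ∀ i, 1 ≤ c i) (n : ℕ) :
    ∀ t : ℝ, 0 < t → t < 1 → 0 < E c n t ∧ E c n t < 1 := by
  induction n with
  | zero => intro t h0 h1; exact ⟨h0, h1⟩
  | succ n ih =>
    intro t h0 h1
    have h := inv_mem (hc n) h0
    rw [E]
    exact ih _ h.1 h.2

/-- numerators and denominators: `(num, num', den, den')` -/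
def num (c : ℕ → ℕ) : ℕ → ℕ × ℕ
  | 0 => (0, 1)
  | n+1 => (c n * (num c n).1 + (num c n).2, (num c n).1)

def den (c : ℕ → ℕ) : ℕ → ℕ × ℕ
  | 0 => (1, 0)
  | n+1 => (c n * (den c n).1 + (den c n).2, (den c n).1)

lemma den_pos (c : ℕ → ℕ) (hc : ∀ i, 1 ≤ c i) (n : ℕ) : 1 ≤ (den c n).1 := by
  induction n with
  | zero => simp [den]
  | succ n ih =>
    simp only [den]
    have := hc n
    nlinarith [Nat.zero_le (den c n).2]

lemma fib_le_den (c : ℕ → ℕ) (hc : ∀ i, 1 ≤ c i) (n : ℕ) :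
    Nat.fib (n+1) ≤ (den c n).1 ∧ Nat.fib n ≤ (den c n).2 := by
  induction n with
  | zero => simp [den]
  | succ n ih =>
    simp only [den]
    refine ⟨?_, ih.1⟩
    rw [Nat.fib_add_two]
    have h1 := hc n
    have h2 : (den c n).1 ≤ c n * (den c n).1 := Nat.le_mul_of_pos_left _ h1
    omega

lemma det_eq (c : ℕ → ℕ) (n : ℕ) :
    ((num c n).1 : ℤ) * (den c n).2 - (num c n).2 * (den c n).1 = (-1)^(n+1) := by
  induction n with
  | zero => simp [num, den]
  | succ n ih =>
    simp only [num, den]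
    push_cast
    rw [pow_succ, ← ih]
    ring

lemma E_eq (c : ℕ → ℕ) (hc : ∀ i, 1 ≤ c i) (n : ℕ) :
    ∀ t : ℝ, 0 < t → E c n t =
      (((num c n).1 : ℝ) + (num c n).2 * t) / (((den c n).1 : ℝ) + (den c n).2 * t) := by
  induction n with
  | zero => intro t _; simp [E, num, den]
  | succ n ih =>
    intro t h0
    have hcn : (1:ℝ) ≤ c n := by exact_mod_cast hc n
    have h := inv_mem (hc n) h0
    have hd : (1:ℝ) ≤ (den c n).1 := by exact_mod_cast den_pos c hc n
    have hd2 : (0:ℝ) ≤ (den c n).2 := by positivity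
    have hct : 0 < (c n : ℝ) + t := by linarith
    rw [E, ih _ h.1]
    simp only [num, den]
    push_cast
    have e1 : (((den c n).1:ℝ) + (den c n).2 * (1 / ((c n : ℝ) + t))) ≠ 0 := by positivity
    have e2 : ((c n : ℝ) * (den c n).1 + (den c n).2 + (den c n).1 * t) ≠ 0 := by positivity
    rw [div_eq_div_iff e1 e2]
    field_simp
    ring

/-- `O L z` : `L` ones followed by tail `z` -/
noncomputable def O : ℕ → ℝ → ℝ
  | 0, z => z
  | n+1, z => 1 / (1 + O n z)

lemma O_zero_eq (L : ℕ) : O L 0 = (Nat.fib L : ℝ) / Nat.fib (L+1) := by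
  induction L with
  | zero => simp [O]
  | succ L ih =>
    rw [O, ih, Nat.fib_add_two]
    have h : (0:ℝ) < Nat.fib (L+1) := by exact_mod_cast Nat.fib_pos.mpr (Nat.succ_pos L)
    push_cast
    field_simp
    ring_nf

lemma O_one_eq (L : ℕ) : O L 1 = (Nat.fib (L+1) : ℝ) / Nat.fib (L+2) := by
  induction L with
  | zero => simp [O]
  | succ L ih =>
    rw [O, ih]
    have h : (0:ℝ) < Nat.fib (L+1) := by exact_mod_cast Nat.fib_pos.mpr (Nat.succ_pos L)
    have h2 : (0:ℝ) < Nat.fib (L+2) := by exact_mod_cast Nat.fib_pos.mpr (Nat.succ_pos (L+1))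
    rw [show L + 1 + 2 = (L+1) + 2 from rfl, Nat.fib_add_two (n := L+1)]
    push_cast
    rw [show L + 1 + 1 = L + 2 from rfl]
    field_simp
    ring_nf

lemma O_mem (L : ℕ) {z : ℝ} (h0 : 0 ≤ z) (h1 : z ≤ 1) : 0 ≤ O L z ∧ O L z ≤ 1 := by
  induction L with
  | zero => exact ⟨h0, h1⟩
  | succ L ih =>
    rw [O]
    constructor
    · have := ih.1; positivity
    · rw [div_le_one (by linarith [ih.1])]; linarith [ih.1]

lemma O_ge_half (L : ℕ) (hL : 1 ≤ L) {z : ℝ} (h0 : 0 ≤ z) (h1 : z ≤ 1) : 1/2 ≤ O L z := by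
  obtain ⟨k, rfl⟩ : ∃ k, L = k + 1 := ⟨L - 1, by omega⟩
  rw [O]
  have := O_mem k h0 h1
  rw [div_le_div_iff₀ (by norm_num) (by linarith [this.1])]
  linarith [this.2]

lemma O_diff (L : ℕ) : |O L 0 - O L 1| = 1 / ((Nat.fib (L+1) : ℝ) * Nat.fib (L+2)) := by
  induction L with
  | zero => simp [O]
  | succ L ih =>
    have h : (0:ℝ) < Nat.fib (L+1) := by exact_mod_cast Nat.fib_pos.mpr (Nat.succ_pos L)
    have h2 : (0:ℝ) < Nat.fib (L+2) := by exact_mod_cast Nat.fib_pos.mpr (Nat.succ_pos (L+1))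
    have h3 : (0:ℝ) < Nat.fib (L+3) := by exact_mod_cast Nat.fib_pos.mpr (Nat.succ_pos (L+2))
    have m0 := O_mem L (le_refl (0:ℝ)) zero_le_one
    have m1 := O_mem L (zero_le_one) (le_refl (1:ℝ))
    have e : O (L+1) 0 - O (L+1) 1 = -((O L 0 - O L 1) / ((1 + O L 0) * (1 + O L 1))) := by
      rw [O, O]
      have a0 : (1 + O L 0) ≠ 0 := by linarith [m0.1]
      have a1 : (1 + O L 1) ≠ 0 := by linarith [m1.1]
      field_simp
      ring
    rw [e, abs_neg, abs_div, ih, abs_of_pos (by nlinarith [m0.1, m1.1] : 0 < (1 + O L 0) * (1 + O L 1))]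
    rw [O_zero_eq, O_one_eq]
    have f1 : (Nat.fib (L+2) : ℝ) = Nat.fib L + Nat.fib (L+1) := by exact_mod_cast Nat.fib_add_two
    have f2 : (Nat.fib (L+3) : ℝ) = Nat.fib (L+1) + Nat.fib (L+2) := by
      exact_mod_cast Nat.fib_add_two (n := L+1)
    have g1 : 1 + (Nat.fib L : ℝ) / Nat.fib (L+1) = Nat.fib (L+2) / Nat.fib (L+1) := by
      rw [f1]; field_simp; ring
    have g2 : 1 + (Nat.fib (L+1) : ℝ) / Nat.fib (L+2) = Nat.fib (L+3) / Nat.fib (L+2) := by
      rw [f2]; field_simp; ring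
    rw [g1, g2]
    rw [show L + 1 + 1 = L + 2 from rfl, show L + 1 + 2 = L + 3 from rfl]
    field_simp

/-- If `v` lies strictly between the endpoints of the cylinder of `L` ones then the first `L`
iterates are larger than `1/2`. -/
lemma run_ones (L : ℕ) : ∀ v : ℝ, (min (O L 0) (O L 1) < v ∧ v < max (O L 0) (O L 1)) →
    ∀ j < L, 1/2 < T^[j] v := by
  induction L with
  | zero => intro v _ j hj; omega
  | succ L ih =>
    intro v hv j hj
    have m0 := O_mem L (le_refl (0:ℝ)) zero_le_one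
    have m1 := O_mem L (zero_le_one) (le_refl (1:ℝ))
    have hv0 : 1/2 < v := by
      refine lt_of_le_of_lt ?_ hv.1
      exact le_min (O_ge_half (L+1) (by omega) le_rfl zero_le_one)
        (O_ge_half (L+1) (by omega) zero_le_one le_rfl)
    have hv1 : v < 1 := by
      refine lt_of_lt_of_le hv.2 ?_
      exact max_le (O_mem (L+1) le_rfl zero_le_one).2 (O_mem (L+1) zero_le_one le_rfl).2
    cases j with
    | zero => simpa using hv0
    | succ j =>
      have hvpos : 0 < v := by linarith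
      set v' : ℝ := 1 / v - 1 with hv'
      have hvv : v = 1 / (((1:ℕ):ℝ) + v') := by
        rw [hv']; push_cast; field_simp; ring
      have hv'0 : 0 < v' := by
        rw [hv', sub_pos, lt_div_iff₀ hvpos]; linarith
      have hv'1 : v' < 1 := by
        rw [hv', sub_lt_iff_lt_add, div_lt_iff₀ hvpos]; linarith
      have hT : T v = v' := by
        rw [hvv]; exact T_eq_of 1 hv'0.le hv'1
      rw [Function.iterate_succ_apply, hT]
      apply ih v' _ j (by omega)
      rw [O, O] at hv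
      have a0 : 0 < 1 + O L 0 := by linarith [m0.1]
      have a1 : 0 < 1 + O L 1 := by linarith [m1.1]
      have hvv' : v = 1 / (1 + v') := by rw [hvv]; push_cast; ring_nf
      have b : 0 < 1 + v' := by linarith
      rcases le_total (O L 0) (O L 1) with h | h
      · have hh : 1 / (1 + O L 1) ≤ 1 / (1 + O L 0) := one_div_le_one_div_of_le a0 (by linarith)
        rw [min_eq_right hh, max_eq_left hh, hvv'] at hv
        rw [min_eq_left h, max_eq_right h]
        have q1 := (one_div_lt_one_div a1 b).mp hv.1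
        have q2 := (one_div_lt_one_div b a0).mp hv.2
        constructor <;> linarith
      · have hh : 1 / (1 + O L 0) ≤ 1 / (1 + O L 1) := one_div_le_one_div_of_le a1 (by linarith)
        rw [min_eq_left hh, max_eq_right hh, hvv'] at hv
        rw [min_eq_right h, max_eq_left h]
        have q1 := (one_div_lt_one_div a0 b).mp hv.1
        have q2 := (one_div_lt_one_div b a1).mp hv.2
        constructor <;> linarith

end Pool.Agent.W_MP_8d5d9c_nt
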