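import Pool.Agent.W_MP_8d5d9c_nt.Orbit

set_option autoImplicit false

namespace Pool.Agent.W_MP_8d5d9c_nt

lemma run_alg (p p' q q' P P' k k' C e s : ℝ) (hq : 0 < q) (hk : 0 < k) (hk' : 0 ≤ k')
    (hC : 0 < C) (hq' : 0 ≤ q') (hs : 0 < s)
    (he : p' * q - p * q' = e) (he2 : P * k' - P' * k = e)
    (hW : 0 < q * (q * s + q') - √2 * k * (k * C + k')) :
    (√2 * ((p * s + p') / (q * s + q')) + √2) - (√2 * (p / q) + √2) =
    (P * (C + √2 * (k * C + k')^2 / (q * (q * s + q') - √2 * k * (k * C + k'))) + P') /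
      (k * (C + √2 * (k * C + k')^2 / (q * (q * s + q') - √2 * k * (k * C + k'))) + k')
      - (P * C + P') / (k * C + k') := by
  set W := q * (q * s + q') - √2 * k * (k * C + k') with hWdef
  set R := k * C + k' with hR
  have hRpos : 0 < R := by positivity
  have hqs : 0 < q * s + q' := by positivity
  have h2 : (0:ℝ) < √2 := by positivity
  have e1 : (√2 * ((p * s + p') / (q * s + q')) + √2) - (√2 * (p / q) + √2)
      = √2 * e / (q * (q * s + q')) := by
    rw [← he]; field_simp; ring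
  set D := √2 * R^2 / W with hD
  have hDpos : 0 < D := by positivity
  have e3 : k * (C + D) + k' = R + k * D := by rw [hR]; ring
  have e3' : P * (C + D) + P' = (P * C + P') + P * D := by ring
  have hR2 : 0 < R + k * D := by positivity
  have e4 : (P * (C + D) + P') / (k * (C + D) + k') - (P * C + P') / R =
      e * D / ((R + k * D) * R) := by
    rw [e3, e3', div_sub_div _ _ hR2.ne' hRpos.ne']
    congr 1
    rw [← he2, hR]; ring
  have e5 : R + k * D = R * (q * (q * s + q')) / W := by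
    rw [hD]
    have : W + √2 * k * R = q * (q * s + q') := by rw [hWdef]; ring
    rw [← this]
    field_simp
  rw [e1, e4, e5, hD]
  field_simp

set_option maxHeartbeats 1000000 in
theorem run_lemma (B p p' q q' : ℕ) (hq : 1 ≤ q)
    (hdet : ((p:ℤ) * q' - p' * q = 1) ∨ ((p:ℤ) * q' - p' * q = -1)) :
    ∃ A : ℕ, 1 ≤ A ∧ ∃ M : ℕ, B ≤ M ∧ 1 ≤ M ∧ ∀ z : ℝ, 0 < z → z < 1 → ∀ n, 2 * M ≤ n → n < 3 * M →
      1/2 < T^[n] (Int.fract (√2 * (((p:ℝ) * (A + z) + p') / (q * (A + z) + q')) + √2)) := by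
  have hqR : (1:ℝ) ≤ q := by exact_mod_cast hq
  set β : ℝ := √2 * ((p:ℝ) / q) + √2 with hβ
  have hβirr : Irrational β := by
    have : β = √2 * (((p:ℚ) / q + 1 : ℚ) : ℝ) := by
      rw [hβ]; push_cast; ring
    rw [this]
    apply Irrational.mul_ratCast irrational_sqrt_two
    positivity
  set b : ℝ := Int.fract β with hb
  have hbirr : Irrational b := by
    have : b = β - ((⌊β⌋ : ℤ) : ℝ) := rfl
    rw [this]; exact hβirr.sub_intCast _
  have hb0 : 0 < b := by
    refine lt_of_le_of_ne (Int.fract_nonneg _) ?_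
    intro h; rw [← h] at hbirr; exact not_irrational_zero hbirr
  have hb1 : b < 1 := Int.fract_lt_one _
  set c := dig b with hc
  have hcpos : ∀ i, 1 ≤ c i := dig_pos hbirr hb0 hb1
  set h := 3 * (q + q') + 5 with hh
  have hfibh : 3 * (q + q') ≤ Nat.fib (h+1) := by
    have := Nat.le_fib_self (n := h+1) (by omega)
    omega
  set M := max B (h + 4) with hM
  have hMB : B ≤ M := le_max_left _ _
  have hMh : h + 4 ≤ M := le_max_right _ _
  obtain ⟨n, hn1, hn2, hnpar⟩ : ∃ n : ℕ, n + 1 ≤ 2 * M ∧ 2 * M ≤ n + 2 ∧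
      ((-1 : ℤ)^(n+1) = (p':ℤ) * q - p * q') := by
    rcases hdet with hd | hd
    · refine ⟨2 * M - 2, by omega, by omega, ?_⟩
      have : 2 * M - 2 + 1 = 2 * (M - 1) + 1 := by omega
      rw [this, pow_succ, pow_mul]
      norm_num
      linarith
    · refine ⟨2 * M - 1, by omega, by omega, ?_⟩
      have : 2 * M - 1 + 1 = 2 * M := by omega
      rw [this, pow_mul]
      norm_num
      linarith
  obtain ⟨L, hL⟩ : ∃ L, n = L + h + 1 := ⟨n - h - 1, by omega⟩
  have hL1 : 1 ≤ L := by omega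
  -- real quantities
  set K := (den c n).1 with hK
  set K' := (den c n).2 with hK'
  set P := (num c n).1 with hP
  set P' := (num c n).2 with hP'
  have hKfib : Nat.fib (n+1) ≤ K := (fib_le_den c hcpos n).1
  have hfib2 : Nat.fib (h+1) * Nat.fib (L+2) ≤ Nat.fib (n+1) := by
    have := Nat.fib_add h (L+1)
    rw [show n + 1 = h + (L+1) + 1 by omega, this]
    exact Nat.le_add_left _ _
  have hKbig : 3 * (q + q') * Nat.fib (L+2) ≤ K := by
    calc 3 * (q + q') * Nat.fib (L+2) ≤ Nat.fib (h+1) * Nat.fib (L+2) := Nat.mul_le_mul_right _ hfibh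
      _ ≤ Nat.fib (n+1) := hfib2
      _ ≤ K := hKfib
  have hF1 : 1 ≤ Nat.fib (L+1) := Nat.fib_pos.mpr (by omega)
  have hF2 : 1 ≤ Nat.fib (L+2) := Nat.fib_pos.mpr (by omega)
  have hF12 : Nat.fib (L+1) ≤ Nat.fib (L+2) := Nat.fib_le_fib_succ
  have hF1R : (1:ℝ) ≤ Nat.fib (L+1) := by exact_mod_cast hF1
  have hF2R : (1:ℝ) ≤ Nat.fib (L+2) := by exact_mod_cast hF2
  have hF12R : (Nat.fib (L+1) : ℝ) ≤ Nat.fib (L+2) := by exact_mod_cast hF12
  have hKbigR : 3 * ((q:ℝ) + q') * Nat.fib (L+2) ≤ K := by exact_mod_cast hKbig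
  have hKpos : 1 ≤ K := den_pos c hcpos n
  have hKR : (1:ℝ) ≤ K := by exact_mod_cast hKpos
  have hK'R : (0:ℝ) ≤ K' := by positivity
  have hq'R : (0:ℝ) ≤ q' := by positivity
  set x := T^[n+1] b with hx
  have hxm := orbit_mem hbirr hb0 hb1 (n+1)
  rw [← hx] at hxm
  have hcn : (1:ℝ) ≤ c n := by exact_mod_cast hcpos n
  set C : ℝ := c n + x with hCdef
  have hC1 : 1 ≤ C := by rw [hCdef]; linarith [hxm.1]
  set R : ℝ := K * C + K' with hR
  have hRK : (K:ℝ) ≤ R := by
    have h8 := mul_le_mul_of_nonneg_left hC1 (by linarith : (0:ℝ) ≤ K)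
    rw [hR]; linarith
  have hRpos : 0 < R := by linarith
  have hbE : b = (P * C + P') / R := by
    have h1 := E_dig hbirr hb0 hb1 n
    rw [← hc] at h1
    have hbn := orbit_mem hbirr hb0 hb1 n
    rw [E_eq c hcpos n _ hbn.1] at h1
    have h2 := orbit_eq hbirr hb0 hb1 n
    rw [← hc, ← hx, ← hCdef] at h2
    rw [← h1, h2]
    rw [← hP, ← hP', ← hK, ← hK']
    have hCpos : 0 < C := by linarith
    rw [hR]
    have : (K:ℝ) + K' * (1 / C) ≠ 0 := by positivity
    field_simp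
  have hdetc : (P:ℝ) * K' - P' * K = (p':ℝ) * q - p * q' := by
    have h1 := det_eq c n
    rw [hnpar] at h1
    exact_mod_cast h1
  -- endpoints
  set v1 := min (O L 0) (O L 1) with hv1
  set v2 := max (O L 0) (O L 1) with hv2
  have hv1h : 1/2 ≤ v1 := le_min (O_ge_half L hL1 le_rfl zero_le_one) (O_ge_half L hL1 zero_le_one le_rfl)
  have hv2h : v2 ≤ 1 := max_le (O_mem L le_rfl zero_le_one).2 (O_mem L zero_le_one le_rfl).2
  have hv21 : v2 - v1 = 1 / ((Nat.fib (L+1) : ℝ) * Nat.fib (L+2)) := by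
    rw [hv1, hv2, max_sub_min_eq_abs, abs_sub_comm, O_diff]
  have hv21pos : 0 < v2 - v1 := by rw [hv21]; positivity
  set D1 := v1 + 1 - x with hD1
  set D2 := v2 + 1 - x with hD2
  have hD1l : 1/2 < D1 := by rw [hD1]; linarith [hxm.2]
  have hD2u : D2 < 2 := by rw [hD2]; linarith [hxm.1]
  have hD12 : D1 < D2 := by rw [hD1, hD2]; linarith
  have h2 : (1:ℝ) < √2 := by
    rw [Real.lt_sqrt (by norm_num)]; norm_num
  have h2' : √2 < 2 := by
    rw [Real.sqrt_lt' (by norm_num)]; norm_num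
  set W1 := √2 * R^2 / D1 with hW1
  set W2 := √2 * R^2 / D2 with hW2
  have hD2pos : 0 < D2 := by linarith
  have hW2pos : 0 < W2 := by rw [hW2]; exact div_pos (by positivity) hD2pos
  have hqpos : (0:ℝ) < q := by linarith
  -- length estimate
  have hlen : 2 * (q:ℝ)^2 ≤ W1 - W2 := by
    have hD1p : 0 < D1 := by linarith
    have hD2p : 0 < D2 := by linarith
    have e : W1 - W2 = √2 * R^2 * (v2 - v1) / (D1 * D2) := by
      have : D2 - D1 = v2 - v1 := by rw [hD1, hD2]; ring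
      rw [← this, hW1, hW2]; field_simp
    rw [e, hv21]
    have hDD : D1 * D2 ≤ 4 := by
      calc D1 * D2 ≤ 2 * 2 := mul_le_mul (by linarith) (by linarith) (by linarith) (by norm_num)
        _ = 4 := by norm_num
    rw [le_div_iff₀ (by positivity)]
    have hR2 : (3 * ((q:ℝ) + q') * Nat.fib (L+2))^2 ≤ R^2 := by
      apply pow_le_pow_left₀ (by positivity)
      linarith
    have hR3 : 9 * (q:ℝ)^2 * (Nat.fib (L+2) : ℝ)^2 ≤ R^2 := by
      refine le_trans ?_ hR2
      have : (q:ℝ)^2 ≤ ((q:ℝ) + q')^2 := pow_le_pow_left₀ (by positivity) (by linarith) 2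
      have hFs : (0:ℝ) ≤ (Nat.fib (L+2) : ℝ)^2 := by positivity
      have h9 := mul_le_mul_of_nonneg_right this hFs
      calc 9 * (q:ℝ)^2 * (Nat.fib (L+2) : ℝ)^2 = 9 * ((q:ℝ)^2 * (Nat.fib (L+2) : ℝ)^2) := by ring
        _ ≤ 9 * (((q:ℝ) + q')^2 * (Nat.fib (L+2) : ℝ)^2) := by linarith
        _ = (3 * ((q:ℝ) + q') * Nat.fib (L+2))^2 := by ring
    have hFF : (Nat.fib (L+1) : ℝ) * Nat.fib (L+2) ≤ (Nat.fib (L+2) : ℝ)^2 := by
      rw [sq]; exact mul_le_mul_of_nonneg_right hF12R (by positivity)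
    have hFFpos : 0 < (Nat.fib (L+1) : ℝ) * Nat.fib (L+2) := by positivity
    calc 2 * (q:ℝ)^2 * (D1 * D2) ≤ 2 * (q:ℝ)^2 * 4 := by
          apply mul_le_mul_of_nonneg_left hDD (by positivity)
      _ ≤ 9 * (q:ℝ)^2 := by
          have h10 := sq_nonneg (q:ℝ)
          linarith
      _ = 9 * (q:ℝ)^2 * (Nat.fib (L+2) : ℝ)^2 / (Nat.fib (L+2) : ℝ)^2 := by field_simp
      _ ≤ R^2 / (Nat.fib (L+2) : ℝ)^2 := by
          apply div_le_div_of_nonneg_right hR3 (by positivity)
      _ ≤ R^2 / ((Nat.fib (L+1) : ℝ) * Nat.fib (L+2)) := by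
          apply div_le_div_of_nonneg_left (by positivity) hFFpos hFF
      _ ≤ √2 * R^2 / ((Nat.fib (L+1) : ℝ) * Nat.fib (L+2)) := by
          apply div_le_div_of_nonneg_right _ hFFpos.le
          have h11 := mul_le_mul_of_nonneg_right h2.le (sq_nonneg R)
          linarith
      _ = √2 * R^2 * (1 / ((Nat.fib (L+1) : ℝ) * Nat.fib (L+2))) := by ring
  -- `s2`
  set s2 := (W2 + √2 * K * R - q * q') / (q:ℝ)^2 with hs2
  have hs2nn : 0 ≤ s2 := by
    rw [hs2]
    apply div_nonneg _ (by positivity)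
    have h3 : (q:ℝ) * q' ≤ K * R := by
      have h4 : (q:ℝ) + q' ≤ K := by
        refine le_trans ?_ hKbigR
        have h41 : (0:ℝ) ≤ (q:ℝ) + q' := by positivity
        have h42 := mul_le_mul_of_nonneg_left hF2R h41
        linarith
      have h5 : (q:ℝ) ≤ K := by linarith
      have h6 : (q':ℝ) ≤ R := by linarith
      exact mul_le_mul h5 h6 hq'R (by linarith)
    have h7 : (K:ℝ) * R ≤ √2 * K * R := by
      have hKR0 : 0 ≤ (K:ℝ) * R := by positivity
      calc (K:ℝ) * R = 1 * (K * R) := by ring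
        _ ≤ √2 * (K * R) := mul_le_mul_of_nonneg_right h2.le hKR0
        _ = √2 * K * R := by ring
    linarith
  set A := ⌊s2⌋₊ + 1 with hA
  refine ⟨A, by omega, M, hMB, by omega, ?_⟩
  intro z hz0 hz1 N hN1 hN2
  set s : ℝ := (A:ℝ) + z with hs
  have hsl : s2 < s := by
    have := Nat.lt_floor_add_one s2
    rw [hs, hA]; push_cast; linarith
  have hsu : s < s2 + 2 := by
    have := Nat.floor_le hs2nn
    rw [hs, hA]; push_cast; linarith
  have hspos : 0 < s := by linarith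
  have hqq : (0:ℝ) < (q:ℝ)^2 := by positivity
  set W : ℝ := q * (q * s + q') - √2 * K * (K * C + K') with hW
  have hWeq : W = (q:ℝ)^2 * s + q * q' - √2 * K * R := by rw [hW, ← hR]; ring
  have hWl : W2 < W := by
    rw [hs2, div_lt_iff₀ hqq] at hsl
    rw [hWeq]; linarith
  have hWu : W < W1 := by
    have h3 : s * (q:ℝ)^2 < (s2 + 2) * (q:ℝ)^2 := mul_lt_mul_of_pos_right hsu hqq
    have h4 : s2 * (q:ℝ)^2 = W2 + √2 * K * R - q * q' := by
      rw [hs2]; field_simp
    rw [hWeq]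
    have h5 : (s2 + 2) * (q:ℝ)^2 = s2 * (q:ℝ)^2 + 2 * (q:ℝ)^2 := by ring
    linarith
  have hWpos : 0 < W := by linarith
  set D := √2 * (K * C + K')^2 / W with hD
  have hDl : D1 < D := by
    rw [hD, ← hR, lt_div_iff₀ hWpos]
    rw [hW1, lt_div_iff₀ (by linarith)] at hWu
    linarith
  have hDu : D < D2 := by
    rw [hD, ← hR, div_lt_iff₀ hWpos]
    rw [hW2, div_lt_iff₀ (by linarith)] at hWl
    linarith
  -- `v`
  set v := x - 1 + D with hv
  have hv1' : v1 < v := by rw [hv]; linarith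
  have hv2' : v < v2 := by rw [hv]; linarith
  have hvm : 0 < v ∧ v < 1 := ⟨by linarith, by linarith⟩
  have key := run_alg p p' q q' P P' K K' C ((p':ℝ) * q - p * q') s hqpos (by linarith) hK'R
    (by linarith) hq'R hspos rfl hdetc hWpos
  rw [← hD, ← hβ, ← hR, ← hbE] at key
  have hg : C + D = ((c n + 1 : ℕ) : ℝ) + v := by rw [hCdef, hv]; push_cast; ring
  have hw := inv_mem (show 1 ≤ c n + 1 by omega) hvm.1
  have hEw : E c n (1 / (((c n + 1 : ℕ) : ℝ) + v)) = (P * (C + D) + P') / (K * (C + D) + K') := by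
    rw [E_eq c hcpos n _ hw.1, ← hg]
    rw [← hP, ← hP', ← hK, ← hK']
    have hCD : 0 < C + D := by linarith
    have : (K:ℝ) + K' * (1 / (C + D)) ≠ 0 := by positivity
    field_simp
  have hy : √2 * (((p:ℝ) * s + p') / (q * s + q')) + √2 =
      ((⌊β⌋ : ℤ) : ℝ) + E c n (1 / (((c n + 1 : ℕ) : ℝ) + v)) := by
    rw [hEw]
    have : β = ((⌊β⌋ : ℤ) : ℝ) + b := (Int.floor_add_fract β).symm
    linarith
  have hEm := E_mem c hcpos n _ hw.1 hw.2
  have hfr : Int.fract (√2 * (((p:ℝ) * s + p') / (q * s + q')) + √2) =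
      E c n (1 / (((c n + 1 : ℕ) : ℝ) + v)) := by
    rw [hy, Int.fract_intCast_add]
    exact Int.fract_eq_self.mpr ⟨hEm.1.le, hEm.2⟩
  rw [hfr]
  obtain ⟨j, hj⟩ : ∃ j, N = j + (n + 1) := ⟨N - (n+1), by omega⟩
  have hjL : j < L := by omega
  rw [hj, Function.iterate_add_apply, Function.iterate_succ_apply', T_iter_E c hcpos n _ hw.1 hw.2,
    T_eq_of _ hvm.1.le hvm.2]
  exact run_ones L v ⟨hv1', hv2'⟩ j hjL

end Pool.Agent.W_MP_8d5d9c_nt
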