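import Pool.Agent.W_MP_8d5d9c_nt.Select
import Pool.Agent.W_MP_8d5d9c_nt.Run

set_option autoImplicit false

open MeasureTheory Filter Topology

namespace Pool.Agent.W_MP_8d5d9c_nt

/-- triangular numbers -/
def tri : ℕ → ℕ
  | 0 => 0
  | m+1 => tri m + (m + 1)

lemma tri_cast (m : ℕ) : (tri m : ℝ) = (m:ℝ) * (m + 1) / 2 := by
  induction m with
  | zero => simp [tri]
  | succ m ih => simp only [tri]; push_cast; rw [ih]; ring

structure St where
  m : ℕ
  j : ℕ
  p : ℕ
  p' : ℕ
  q : ℕ
  q' : ℕ

section build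

variable (ω : ℕ → ℝ) (A : ℕ → ℕ → ℕ → ℕ → ℕ → ℕ)

noncomputable def dgt (s : St) : ℕ :=
  if s.j < s.m then dig (ω s.m) s.j else A s.m s.p s.p' s.q s.q'

noncomputable def nxt (s : St) : St where
  m := if s.j < s.m then s.m else s.m + 1
  j := if s.j < s.m then s.j + 1 else 0
  p := s.p * dgt ω A s + s.p'
  p' := s.p
  q := s.q * dgt ω A s + s.q'
  q' := s.q

noncomputable def stt : ℕ → St
  | 0 => ⟨0, 0, 0, 1, 1, 0⟩
  | n+1 => nxt ω A (stt n)

noncomputable def dd (n : ℕ) : ℕ := dgt ω A (stt ω A n)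

lemma stt_pos (m : ℕ) : ∀ j ≤ m, (stt ω A (tri m + j)).m = m ∧ (stt ω A (tri m + j)).j = j := by
  induction m with
  | zero =>
    intro j hj
    have : j = 0 := by omega
    subst this
    simp [tri, stt]
  | succ m ihm =>
    intro j
    induction j with
    | zero =>
      intro _
      have h := ihm m le_rfl
      have e : tri (m+1) + 0 = (tri m + m) + 1 := by simp only [tri]; omega
      rw [e, stt, nxt]
      simp only [h.1, h.2, lt_irrefl, if_false, and_self]
    | succ j ihj =>
      intro hj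
      have h := ihj (by omega)
      have e : tri (m+1) + (j+1) = (tri (m+1) + j) + 1 := by omega
      rw [e, stt, nxt]
      simp only [h.1, h.2]
      have : j < m + 1 := by omega
      simp [this]

lemma dd_block (m j : ℕ) (hj : j < m) : dd ω A (tri m + j) = dig (ω m) j := by
  have h := stt_pos ω A m j hj.le
  unfold dd dgt
  rw [h.1, h.2, if_pos hj]

lemma dd_special (m : ℕ) : dd ω A (tri m + m) = A m (stt ω A (tri m + m)).p (stt ω A (tri m + m)).p'
    (stt ω A (tri m + m)).q (stt ω A (tri m + m)).q' := by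
  have h := stt_pos ω A m m le_rfl
  unfold dd dgt
  rw [h.1, h.2, if_neg (lt_irrefl m)]

variable (hω : ∀ m, Irrational (ω m) ∧ 0 < ω m ∧ ω m < 1) (hA : ∀ m p p' q q', 1 ≤ A m p p' q q')

include hω hA in
lemma dd_pos (n : ℕ) : 1 ≤ dd ω A n := by
  unfold dd dgt
  split_ifs
  · exact dig_pos (hω _).1 (hω _).2.1 (hω _).2.2 _
  · exact hA _ _ _ _ _

include hω hA in
lemma stt_q (n : ℕ) : 1 ≤ (stt ω A n).q := by
  induction n with
  | zero => simp [stt]
  | succ n ih =>
    have h := dd_pos ω A hω hA n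
    rw [stt, nxt]
    simp only
    have : 1 ≤ (stt ω A n).q * dgt ω A (stt ω A n) := Nat.mul_pos ih h
    omega

lemma stt_det (n : ℕ) : (((stt ω A n).p : ℤ) * (stt ω A n).q' - (stt ω A n).p' * (stt ω A n).q = 1) ∨
    (((stt ω A n).p : ℤ) * (stt ω A n).q' - (stt ω A n).p' * (stt ω A n).q = -1) := by
  induction n with
  | zero => right; simp [stt]
  | succ n ih =>
    rw [stt, nxt]
    simp only
    push_cast
    rcases ih with h | h
    · right; linarith
    · left; linarith

include hω hA in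
lemma X_zero_eq {X : ℕ → ℝ} (hX : ∀ n, 0 < X n ∧ X n < 1)
    (h : ∀ n, X n = 1 / ((dd ω A n : ℝ) + X (n+1))) (n : ℕ) :
    X 0 = (((stt ω A n).p : ℝ) + (stt ω A n).p' * X n) / ((stt ω A n).q + (stt ω A n).q' * X n) := by
  induction n with
  | zero => simp [stt]
  | succ n ih =>
    rw [ih]
    have hq := stt_q ω A hω hA n
    have hqR : (1:ℝ) ≤ (stt ω A n).q := by exact_mod_cast hq
    have hd : (1:ℝ) ≤ dd ω A n := by exact_mod_cast dd_pos ω A hω hA n
    have hx := hX (n+1)
    have hxn := h n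
    have e : dgt ω A (stt ω A n) = dd ω A n := rfl
    rw [stt, nxt]
    simp only [e]
    push_cast
    rw [hxn]
    have h1 : (0:ℝ) < (dd ω A n : ℝ) + X (n+1) := by linarith
    have h2 : ((stt ω A n).q : ℝ) + (stt ω A n).q' * (1 / ((dd ω A n : ℝ) + X (n+1))) ≠ 0 := by
      positivity
    have h3 : ((stt ω A n).q : ℝ) * (dd ω A n) + (stt ω A n).q' + (stt ω A n).q * X (n+1) ≠ 0 := by
      have := hx.1
      positivity
    rw [div_eq_div_iff h2 h3]
    field_simp
    ring

end build

lemma blk (i k a b : ℕ) (f g : ℕ → ℝ) (ha : a ≤ i + 1) (hb : ∀ j, j + k ≤ i → j < b)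
    (hf : ∀ j, f j ≤ 1) (hg : ∀ j, 0 ≤ g j) (h : ∀ j, j + k ≤ i → f j ≤ g j) :
    ∑ j ∈ Finset.range a, f j ≤ ∑ j ∈ Finset.range b, g j + k := by
  rw [← Finset.sum_filter_add_sum_filter_not (Finset.range a) (fun j => j + k ≤ i)]
  apply add_le_add
  · calc ∑ j ∈ (Finset.range a).filter (fun j => j + k ≤ i), f j
        ≤ ∑ j ∈ (Finset.range a).filter (fun j => j + k ≤ i), g j := by
          apply Finset.sum_le_sum
          intro j hj
          exact h j (Finset.mem_filter.mp hj).2
      _ ≤ ∑ j ∈ Finset.range b, g j := by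
          apply Finset.sum_le_sum_of_subset_of_nonneg
          · intro j hj
            exact Finset.mem_range.mpr (hb j (Finset.mem_filter.mp hj).2)
          · intro j _ _; exact hg j
  · calc ∑ j ∈ (Finset.range a).filter (fun j => ¬ (j + k ≤ i)), f j
        ≤ ∑ j ∈ (Finset.range a).filter (fun j => ¬ (j + k ≤ i)), (1:ℝ) := by
          apply Finset.sum_le_sum
          intro j _; exact hf j
      _ = (((Finset.range a).filter (fun j => ¬ (j + k ≤ i))).card : ℝ) := by simp
      _ ≤ k := by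
          have : ((Finset.range a).filter (fun j => ¬ (j + k ≤ i))).card ≤ (Finset.Ico (i+1-k) (i+1)).card := by
            apply Finset.card_le_card
            intro j hj
            rw [Finset.mem_filter, Finset.mem_range] at hj
            rw [Finset.mem_Ico]
            omega
          rw [Nat.card_Ico] at this
          have h2 : ((Finset.range a).filter (fun j => ¬ (j + k ≤ i))).card ≤ k := by omega
          exact_mod_cast h2

/-- counting function of `X` -/
noncomputable def cX (X : ℕ → ℝ) (t : ℝ) (N : ℕ) : ℝ := ∑ n ∈ Finset.range N, if X n < t then (1:ℝ) else 0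

lemma cX_tri (X : ℕ → ℝ) (t : ℝ) (m : ℕ) : cX X t (tri m) =
    ∑ i ∈ Finset.range m, ∑ j ∈ Finset.range (i+1), if X (tri i + j) < t then (1:ℝ) else 0 := by
  induction m with
  | zero => simp [cX, tri]
  | succ m ih =>
    rw [Finset.sum_range_succ, ← ih]
    unfold cX
    simp only [tri]
    rw [Finset.sum_range_add]

lemma tri_sum (m : ℕ) : ∑ i ∈ Finset.range m, (i:ℝ) = (tri m : ℝ) - m := by
  induction m with
  | zero => simp [tri]
  | succ m ih =>
    rw [Finset.sum_range_succ, ih]
    simp only [tri]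
    push_cast
    ring

section count

variable (τ : ℕ → ℝ) (X : ℕ → ℝ)

/-- closeness of `X` to the orbit of `ω` in blocks -/
def CloseTo (ω : ℕ → ℝ) (X : ℕ → ℝ) : Prop :=
  ∀ m j, j ≤ m → |X (tri m + j) - T^[j] (ω m)| ≤ 1 / (((m - j : ℕ) : ℝ) + 1)

lemma Dm_sum (m κ : ℕ) : ∑ i ∈ Finset.range m, cnt i (τ κ) (om τ i) =
    Dm τ m κ + G (τ κ) * ((tri m : ℝ) - m) := by
  induction m with
  | zero => simp [Dm, tri]
  | succ m ih =>
    rw [Finset.sum_range_succ, ih, Dm_succ]
    unfold Y
    simp only [tri]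
    push_cast
    ring

lemma upper (h : CloseTo (om τ) X) (t : ℝ) (κ k : ℕ) (hk1 : 1 ≤ k)
    (hk : 1 / ((k:ℝ) + 1) ≤ τ κ - t) (m : ℕ) :
    cX X t (tri m) ≤ Dm τ m κ + G (τ κ) * ((tri m : ℝ) - m) + k * m := by
  rw [cX_tri, ← Dm_sum]
  have : ∑ i ∈ Finset.range m, ∑ j ∈ Finset.range (i+1), (if X (tri i + j) < t then (1:ℝ) else 0) ≤
      ∑ i ∈ Finset.range m, (cnt i (τ κ) (om τ i) + k) := by
    apply Finset.sum_le_sum
    intro i _
    unfold cnt
    apply blk i k (i+1) i _ _ le_rfl (fun j hj => by omega)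
    · intro j; split_ifs <;> norm_num
    · intro j; split_ifs <;> norm_num
    · intro j hj
      split_ifs with h1 h2 <;> try norm_num
      exfalso
      apply h2
      have h3 := h i j (by omega)
      have h4 : 1 / (((i - j : ℕ) : ℝ) + 1) ≤ 1 / ((k:ℝ) + 1) := by
        apply one_div_le_one_div_of_le (by positivity)
        have : (k:ℝ) ≤ ((i - j : ℕ) : ℝ) := by exact_mod_cast (by omega : k ≤ i - j)
        linarith
      have h5 := (abs_le.mp h3).1
      linarith
  rw [Finset.sum_add_distrib] at this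
  simp only [Finset.sum_const, Finset.card_range, nsmul_eq_mul] at this
  linarith

lemma lower (h : CloseTo (om τ) X) (t : ℝ) (κ k : ℕ) (hk1 : 1 ≤ k)
    (hk : 1 / ((k:ℝ) + 1) < t - τ κ) (m : ℕ) :
    Dm τ m κ + G (τ κ) * ((tri m : ℝ) - m) - k * m ≤ cX X t (tri m) := by
  rw [cX_tri, ← Dm_sum]
  have : ∑ i ∈ Finset.range m, cnt i (τ κ) (om τ i) ≤ ∑ i ∈ Finset.range m,
      (∑ j ∈ Finset.range (i+1), (if X (tri i + j) < t then (1:ℝ) else 0) + k) := by
    apply Finset.sum_le_sum
    intro i _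
    unfold cnt
    apply blk i k i (i+1) _ _ (by omega) (fun j hj => by omega)
    · intro j; split_ifs <;> norm_num
    · intro j; split_ifs <;> norm_num
    · intro j hj
      split_ifs with h1 h2 <;> try norm_num
      exfalso
      apply h2
      have h3 := h i j (by omega)
      have h4 : 1 / (((i - j : ℕ) : ℝ) + 1) ≤ 1 / ((k:ℝ) + 1) := by
        apply one_div_le_one_div_of_le (by positivity)
        have : (k:ℝ) ≤ ((i - j : ℕ) : ℝ) := by exact_mod_cast (by omega : k ≤ i - j)
        linarith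
      have h5 := (abs_le.mp h3).2
      linarith
  rw [Finset.sum_add_distrib] at this
  simp only [Finset.sum_const, Finset.card_range, nsmul_eq_mul] at this
  linarith

end count

end Pool.Agent.W_MP_8d5d9c_nt
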