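import Pool.Agent.W_MP_8d5d9c_nt.Basic

set_option autoImplicit false

open MeasureTheory Filter Topology

namespace Pool.Agent.W_MP_8d5d9c_nt

/-- distribution function of the Gauss measure -/
noncomputable def G (t : ℝ) : ℝ := Real.logb 2 (1 + max 0 (min t 1))

lemma G_cont : Continuous G := by
  unfold G
  have h : Continuous fun t : ℝ => (1:ℝ) + max 0 (min t 1) := by fun_prop
  simp only [Real.logb]
  refine Continuous.div_const ?_ _
  refine h.log ?_
  intro x
  have : (0:ℝ) ≤ max 0 (min x 1) := le_max_left _ _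
  linarith

lemma G_of_mem {t : ℝ} (h0 : 0 ≤ t) (h1 : t ≤ 1) : G t = Real.log (1 + t) / Real.log 2 := by
  unfold G
  rw [min_eq_left h1, max_eq_right h0]
  rfl

lemma G_nonneg (t : ℝ) : 0 ≤ G t := by
  unfold G
  apply Real.logb_nonneg (by norm_num)
  have : (0:ℝ) ≤ max 0 (min t 1) := le_max_left _ _
  linarith

lemma G_le_one (t : ℝ) : G t ≤ 1 := by
  unfold G
  have h0 : (0:ℝ) ≤ max 0 (min t 1) := le_max_left _ _
  have h1 : max 0 (min t 1) ≤ 1 := max_le zero_le_one (min_le_right _ _)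
  calc Real.logb 2 (1 + max 0 (min t 1)) ≤ Real.logb 2 2 :=
        Real.logb_le_logb_of_le (by norm_num) (by linarith) (by linarith)
    _ = 1 := Real.logb_self_eq_one (by norm_num)

/-- The Gauss measure. -/
noncomputable def gm : Measure ℝ := Measure.map (fun u : ℝ => (2:ℝ)^u - 1) (volume.restrict (Set.Ioc 0 1))

lemma pow_meas : Measurable (fun u : ℝ => (2:ℝ)^u - 1) := by
  apply Measurable.sub_const
  exact (Real.continuous_const_rpow (by norm_num)).measurable

instance : IsProbabilityMeasure gm := by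
  unfold gm
  have : IsProbabilityMeasure (volume.restrict (Set.Ioc (0:ℝ) 1)) := by
    constructor
    rw [Measure.restrict_apply MeasurableSet.univ]
    simp
  exact Measure.isProbabilityMeasure_map pow_meas.aemeasurable

lemma gm_Iic (t : ℝ) : gm (Set.Iic t) = ENNReal.ofReal (G t) := by
  unfold gm
  rw [Measure.map_apply pow_meas measurableSet_Iic, Measure.restrict_apply (pow_meas measurableSet_Iic)]
  rcases lt_or_ge t 0 with h | h
  · have : (fun u : ℝ => (2:ℝ)^u - 1) ⁻¹' Set.Iic t ∩ Set.Ioc 0 1 = ∅ := by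
      ext u
      simp only [Set.mem_inter_iff, Set.mem_preimage, Set.mem_Iic, Set.mem_Ioc, Set.mem_empty_iff_false,
        iff_false, not_and]
      intro h1 h2 _
      have h3 : (1:ℝ) < 2^u := Real.one_lt_rpow (by norm_num) h2
      linarith
    rw [this]
    have hG : G t = 0 := by
      unfold G
      rw [max_eq_left (le_trans (min_le_left _ _) h.le)]
      simp
    rw [hG]; simp
  · have hG : G t = min 1 (Real.logb 2 (1 + t)) := by
      unfold G
      rw [max_eq_right (le_min h zero_le_one)]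
      rcases le_total t 1 with h1 | h1
      · rw [min_eq_left h1, min_eq_right]
        calc Real.logb 2 (1 + t) ≤ Real.logb 2 2 :=
              Real.logb_le_logb_of_le (by norm_num) (by linarith) (by linarith)
          _ = 1 := Real.logb_self_eq_one (by norm_num)
      · rw [min_eq_right h1, min_eq_left]
        · norm_num
        · calc (1:ℝ) = Real.logb 2 2 := (Real.logb_self_eq_one (by norm_num)).symm
            _ ≤ Real.logb 2 (1 + t) :=
              Real.logb_le_logb_of_le (by norm_num) (by linarith) (by linarith)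
    have : (fun u : ℝ => (2:ℝ)^u - 1) ⁻¹' Set.Iic t ∩ Set.Ioc 0 1 = Set.Ioc 0 (min 1 (Real.logb 2 (1 + t))) := by
      ext u
      simp only [Set.mem_inter_iff, Set.mem_preimage, Set.mem_Iic, Set.mem_Ioc, le_min_iff]
      have h3 : u ≤ Real.logb 2 (1 + t) ↔ (2:ℝ)^u ≤ 1 + t :=
        Real.le_logb_iff_rpow_le (by norm_num) (by linarith)
      rw [h3]
      constructor
      · rintro ⟨h4, h5, h6⟩
        exact ⟨h5, h6, by linarith⟩
      · rintro ⟨h4, h5, h6⟩
        exact ⟨by linarith, h4, h5⟩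
    rw [this, Real.volume_Ioc, hG, sub_zero]

lemma gm_Icc {a b : ℝ} (ha : 0 < a) (hab : a ≤ b) (hb : b ≤ 1) :
    gm (Set.Icc a b) = ENNReal.ofReal (Real.logb 2 (1 + b) - Real.logb 2 (1 + a)) := by
  unfold gm
  rw [Measure.map_apply pow_meas measurableSet_Icc, Measure.restrict_apply (pow_meas measurableSet_Icc)]
  have : (fun u : ℝ => (2:ℝ)^u - 1) ⁻¹' Set.Icc a b ∩ Set.Ioc 0 1 =
      Set.Icc (Real.logb 2 (1 + a)) (Real.logb 2 (1 + b)) := by
    ext u
    simp only [Set.mem_inter_iff, Set.mem_preimage, Set.mem_Icc, Set.mem_Ioc]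
    have h3 : u ≤ Real.logb 2 (1 + b) ↔ (2:ℝ)^u ≤ 1 + b :=
      Real.le_logb_iff_rpow_le (by norm_num) (by linarith)
    have h4 : Real.logb 2 (1 + a) ≤ u ↔ 1 + a ≤ (2:ℝ)^u :=
      Real.logb_le_iff_le_rpow (by norm_num) (by linarith)
    rw [h3, h4]
    constructor
    · rintro ⟨⟨h5, h6⟩, h7, h8⟩
      exact ⟨by linarith, by linarith⟩
    · rintro ⟨h5, h6⟩
      refine ⟨⟨by linarith, by linarith⟩, ?_, ?_⟩
      · have : Real.logb 2 (1 + a) ≤ u := h4.mpr h5
        have h9 : 0 < Real.logb 2 (1 + a) := Real.logb_pos (by norm_num) (by linarith)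
        linarith
      · have : u ≤ Real.logb 2 (1 + b) := h3.mpr h6
        have h9 : Real.logb 2 (1 + b) ≤ Real.logb 2 2 :=
          Real.logb_le_logb_of_le (by norm_num) (by linarith) (by linarith)
        rw [Real.logb_self_eq_one (by norm_num)] at h9
        linarith
  rw [this, Real.volume_Icc]

lemma gm_ae : ∀ᵐ x ∂gm, Irrational x ∧ 0 < x ∧ x < 1 := by
  have hms : MeasurableSet {x : ℝ | Irrational x ∧ 0 < x ∧ x < 1} := by
    have h1 : MeasurableSet {x : ℝ | Irrational x} := by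
      have : {x : ℝ | Irrational x} = (Set.range ((↑) : ℚ → ℝ))ᶜ := rfl
      rw [this]
      exact (Set.countable_range _).measurableSet.compl
    exact h1.inter measurableSet_Ioo
  unfold gm
  rw [ae_map_iff pow_meas.aemeasurable hms, ae_restrict_iff' measurableSet_Ioc]
  have h1 : ∀ᵐ u : ℝ, (2:ℝ)^u - 1 ∉ Set.range ((↑) : ℚ → ℝ) := by
    have hc : ((fun u : ℝ => (2:ℝ)^u - 1) ⁻¹' (Set.range ((↑) : ℚ → ℝ))).Countable := by
      apply (Set.countable_range _).preimage
      intro a b hab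
      have hab' : (2:ℝ)^a = 2^b := by simpa using hab
      exact (Real.strictMono_rpow_of_base_gt_one (by norm_num)).injective hab'
    exact hc.ae_notMem _
  have h2 : ∀ᵐ u : ℝ, u ∉ ({1} : Set ℝ) := (Set.countable_singleton 1).ae_notMem _
  filter_upwards [h1, h2] with u hu1 hu2 hu
  refine ⟨hu1, ?_, ?_⟩
  · have h3 : (1:ℝ) < 2^u := Real.one_lt_rpow (by norm_num) hu.1
    linarith
  · have hu1' : u < 1 := lt_of_le_of_ne hu.2 (by simpa using hu2)
    have h3 : (2:ℝ)^u < 2^(1:ℝ) := Real.rpow_lt_rpow_of_exponent_lt (by norm_num) hu1'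
    rw [Real.rpow_one] at h3
    linarith

lemma T_meas : Measurable T := by
  unfold T
  exact measurable_fract.comp (measurable_const.div measurable_id)

lemma tele (t : ℝ) (h0 : 0 ≤ t) : HasSum
    (fun n : ℕ => Real.logb 2 (1 + 1 / ((n:ℝ) + 1)) - Real.logb 2 (1 + 1 / ((n:ℝ) + 1 + t)))
    (Real.logb 2 (1 + t)) := by
  have hnn : ∀ n : ℕ, 0 ≤ Real.logb 2 (1 + 1 / ((n:ℝ) + 1)) - Real.logb 2 (1 + 1 / ((n:ℝ) + 1 + t)) := by
    intro n
    rw [sub_nonneg]
    apply Real.logb_le_logb_of_le (by norm_num) (by positivity)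
    have : 1 / ((n:ℝ) + 1 + t) ≤ 1 / ((n:ℝ) + 1) :=
      one_div_le_one_div_of_le (by positivity) (by linarith)
    linarith
  rw [hasSum_iff_tendsto_nat_of_nonneg hnn]
  have hsum : ∀ M : ℕ, ∑ n ∈ Finset.range M,
      (Real.logb 2 (1 + 1 / ((n:ℝ) + 1)) - Real.logb 2 (1 + 1 / ((n:ℝ) + 1 + t))) =
      Real.logb 2 (1 + t) - Real.logb 2 (1 + t / ((M:ℝ) + 1)) := by
    intro M
    induction M with
    | zero => simp
    | succ M ih =>
      rw [Finset.sum_range_succ, ih]
      have hM : (0:ℝ) < (M:ℝ) + 1 := by positivity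
      have e1 : 1 + 1 / ((M:ℝ) + 1) = ((M:ℝ) + 2) / ((M:ℝ) + 1) := by field_simp; ring
      have e2 : 1 + 1 / ((M:ℝ) + 1 + t) = ((M:ℝ) + 2 + t) / ((M:ℝ) + 1 + t) := by
        have : (M:ℝ) + 1 + t ≠ 0 := by positivity
        field_simp; ring
      have e3 : 1 + t / ((M:ℝ) + 1) = ((M:ℝ) + 1 + t) / ((M:ℝ) + 1) := by field_simp
      have e4 : 1 + t / (((M+1 : ℕ):ℝ) + 1) = ((M:ℝ) + 2 + t) / ((M:ℝ) + 2) := by
        push_cast
        have : (M:ℝ) + 1 + 1 ≠ 0 := by positivity
        have : (M:ℝ) + 2 ≠ 0 := by positivity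
        field_simp; ring
      rw [e1, e2, e3, e4, Real.logb_div (by positivity) (by positivity),
        Real.logb_div (by positivity) (by positivity), Real.logb_div (by positivity) (by positivity),
        Real.logb_div (by positivity) (by positivity)]
      ring
  simp_rw [hsum]
  have hlim : Tendsto (fun M : ℕ => 1 + t / ((M:ℝ) + 1)) atTop (𝓝 1) := by
    have h1 : Tendsto (fun M : ℕ => t / ((M:ℝ) + 1)) atTop (𝓝 0) := by
      have := (tendsto_one_div_add_atTop_nhds_zero_nat (𝕜 := ℝ)).const_mul t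
      rw [mul_zero] at this
      refine this.congr fun M => ?_
      ring
    have := h1.const_add 1
    rwa [add_zero] at this
  have hlog : Tendsto (fun M : ℕ => Real.logb 2 (1 + t / ((M:ℝ) + 1))) atTop (𝓝 0) := by
    have h2 := ((Real.continuousAt_log (x := 1) (by norm_num)).tendsto.comp hlim).div_const (Real.log 2)
    rw [Real.log_one, zero_div] at h2
    exact h2
  have := hlog.const_sub (Real.logb 2 (1 + t))
  rwa [sub_zero] at this

lemma T_pres : MeasurePreserving T gm gm := by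
  refine ⟨T_meas, ?_⟩
  have : IsProbabilityMeasure (Measure.map T gm) := Measure.isProbabilityMeasure_map T_meas.aemeasurable
  refine Measure.ext_of_Iic _ _ ?_
  intro t
  rw [Measure.map_apply T_meas measurableSet_Iic]
  rcases lt_or_ge t 0 with h | h
  · have e1 : T ⁻¹' Set.Iic t = ∅ := by
      ext x
      simp only [Set.mem_preimage, Set.mem_Iic, Set.mem_empty_iff_false, iff_false, not_le]
      linarith [T_nonneg x]
    have hG : G t = 0 := by
      unfold G
      rw [max_eq_left (le_trans (min_le_left _ _) h.le)]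
      simp
    rw [e1, gm_Iic, hG]; simp
  rcases lt_or_ge t 1 with h1 | h1
  swap
  · have e1 : T ⁻¹' Set.Iic t = Set.univ := by
      ext x
      simp only [Set.mem_preimage, Set.mem_Iic, Set.mem_univ, iff_true]
      linarith [T_lt_one x]
    have hG : G t = 1 := by
      unfold G
      rw [min_eq_right h1, max_eq_right zero_le_one]
      norm_num
    rw [e1, gm_Iic, hG]; simp
  -- main case
  have e1 : T ⁻¹' Set.Iic t =ᵐ[gm] ⋃ n : ℕ, Set.Icc (1 / ((n:ℝ) + 1 + t)) (1 / ((n:ℝ) + 1)) := by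
    filter_upwards [gm_ae] with x hx
    obtain ⟨_, hx0, hx1⟩ := hx
    apply propext
    show x ∈ T ⁻¹' Set.Iic t ↔ x ∈ ⋃ n : ℕ, Set.Icc (1 / ((n:ℝ) + 1 + t)) (1 / ((n:ℝ) + 1))
    simp only [Set.mem_preimage, Set.mem_Iic, Set.mem_iUnion, Set.mem_Icc]
    have hge : 1 < 1 / x := by rw [lt_div_iff₀ hx0]; linarith
    constructor
    · intro hT
      have hfl : 1 ≤ ⌊1 / x⌋₊ := by rw [Nat.one_le_floor_iff]; exact hge.le
      refine ⟨⌊1 / x⌋₊ - 1, ?_⟩
      have hc : ((⌊1 / x⌋₊ - 1 : ℕ) : ℝ) + 1 = (⌊1 / x⌋₊ : ℝ) := by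
        rw [Nat.cast_sub hfl]; push_cast; ring
      rw [hc]
      have hflpos : (0:ℝ) < (⌊1 / x⌋₊ : ℝ) := by
        have : (1:ℝ) ≤ (⌊1 / x⌋₊ : ℝ) := by exact_mod_cast hfl
        linarith
      have hdec : (⌊1 / x⌋₊ : ℝ) + T x = 1 / x := by
        unfold T
        rw [natCast_floor_eq_intCast_floor (by positivity)]
        exact Int.floor_add_fract _
      constructor
      · rw [div_le_iff₀ (by linarith)]
        have h5 : 1 / x ≤ (⌊1 / x⌋₊ : ℝ) + t := by linarith
        rw [div_le_iff₀ hx0] at h5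
        linarith
      · rw [le_div_iff₀ hflpos]
        have h5 : (⌊1 / x⌋₊ : ℝ) ≤ 1 / x := by linarith [T_nonneg x]
        rw [le_div_iff₀ hx0] at h5
        linarith
    · rintro ⟨n, hn1, hn2⟩
      have hn0 : (0:ℝ) ≤ n := by positivity
      rw [div_le_iff₀ (by linarith)] at hn1
      rw [le_div_iff₀ (by linarith)] at hn2
      have hz : 1 / x = ((n + 1 : ℕ) : ℝ) + (1 / x - (n + 1)) := by push_cast; ring
      have hz0 : 0 ≤ 1 / x - (n + 1) := by
        rw [sub_nonneg, le_div_iff₀ hx0]; linarith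
      have hz1 : 1 / x - (n + 1) ≤ t := by
        rw [sub_le_iff_le_add, div_le_iff₀ hx0]; linarith
      unfold T
      rw [hz, Int.fract_natCast_add, Int.fract_eq_self.mpr ⟨hz0, by linarith⟩]
      exact hz1
  rw [measure_congr e1, measure_iUnion]
  · have e2 : ∀ n : ℕ, gm (Set.Icc (1 / ((n:ℝ) + 1 + t)) (1 / ((n:ℝ) + 1))) =
        ENNReal.ofReal (Real.logb 2 (1 + 1 / ((n:ℝ) + 1)) - Real.logb 2 (1 + 1 / ((n:ℝ) + 1 + t))) := by
      intro n
      have hn0 : (0:ℝ) ≤ n := by positivity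
      apply gm_Icc
      · positivity
      · exact one_div_le_one_div_of_le (by positivity) (by linarith)
      · rw [div_le_one (by positivity)]; linarith
    simp_rw [e2]
    rw [← ENNReal.ofReal_tsum_of_nonneg, (tele t h).tsum_eq, gm_Iic]
    · congr 1
      rw [G_of_mem h h1.le]; rfl
    · intro n
      rw [sub_nonneg]
      apply Real.logb_le_logb_of_le (by norm_num) (by positivity)
      have : 1 / ((n:ℝ) + 1 + t) ≤ 1 / ((n:ℝ) + 1) :=
        one_div_le_one_div_of_le (by positivity) (by linarith)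
      linarith
    · exact (tele t h).summable
  · -- disjointness
    have key : ∀ m n : ℕ, m < n → Disjoint (Set.Icc (1 / ((m:ℝ) + 1 + t)) (1 / ((m:ℝ) + 1)))
        (Set.Icc (1 / ((n:ℝ) + 1 + t)) (1 / ((n:ℝ) + 1))) := by
      intro m n hmn
      rw [Set.disjoint_left]
      intro x hx1 hx2
      have hmn' : (m:ℝ) + 1 ≤ n := by exact_mod_cast hmn
      have : 1 / ((n:ℝ) + 1) < 1 / ((m:ℝ) + 1 + t) :=
        one_div_lt_one_div_of_lt (by positivity) (by linarith)
      linarith [hx1.1, hx2.2]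
    intro m n hmn
    rcases lt_or_gt_of_ne hmn with h3 | h3
    · exact key m n h3
    · exact (key n m h3).symm
  · intro n; exact measurableSet_Icc

lemma gm_iter (j : ℕ) (t : ℝ) : gm (T^[j] ⁻¹' Set.Iic t) = ENNReal.ofReal (G t) := by
  rw [(T_pres.iterate j).measure_preimage measurableSet_Iic.nullMeasurableSet, gm_Iic]

end Pool.Agent.W_MP_8d5d9c_nt
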