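import Pool.Agent.W_MP_8d5d9c_nt.Basic

set_option autoImplicit false

namespace Pool.Agent.W_MP_8d5d9c_nt

lemma irr_T {y : ℝ} (hy : Irrational y) : Irrational (T y) := by
  unfold T
  have h1 : Irrational (1 / y) := by
    rw [one_div]; exact hy.inv
  have : Int.fract (1 / y) = 1 / y - ((⌊1 / y⌋ : ℤ) : ℝ) := rfl
  rw [this]
  exact h1.sub_intCast _

lemma irr_iter {y : ℝ} (hy : Irrational y) (n : ℕ) : Irrational (T^[n] y) := by
  induction n with
  | zero => exact hy
  | succ n ih => rw [Function.iterate_succ_apply']; exact irr_T ih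

lemma orbit_mem {b : ℝ} (hb : Irrational b) (h0 : 0 < b) (h1 : b < 1) (n : ℕ) :
    0 < T^[n] b ∧ T^[n] b < 1 := by
  cases n with
  | zero => exact ⟨h0, h1⟩
  | succ n =>
    have hi := irr_iter hb (n+1)
    rw [Function.iterate_succ_apply'] at hi ⊢
    refine ⟨lt_of_le_of_ne (T_nonneg _) ?_, T_lt_one _⟩
    intro h
    rw [← h] at hi
    exact not_irrational_zero hi

/-- The digits of `b`. -/
noncomputable def dig (b : ℝ) (n : ℕ) : ℕ := ⌊1 / T^[n] b⌋₊

lemma dig_pos {b : ℝ} (hb : Irrational b) (h0 : 0 < b) (h1 : b < 1) (n : ℕ) : 1 ≤ dig b n := by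
  have h := orbit_mem hb h0 h1 n
  unfold dig
  rw [Nat.one_le_floor_iff]
  rw [le_div_iff₀ h.1]
  linarith

lemma orbit_eq {b : ℝ} (hb : Irrational b) (h0 : 0 < b) (h1 : b < 1) (n : ℕ) :
    T^[n] b = 1 / ((dig b n : ℝ) + T^[n+1] b) := by
  have h := orbit_mem hb h0 h1 n
  rw [Function.iterate_succ_apply']
  have : (dig b n : ℝ) + T (T^[n] b) = 1 / T^[n] b := by
    unfold dig T
    rw [natCast_floor_eq_intCast_floor (by have := h.1; positivity)]
    exact Int.floor_add_fract _
  rw [this, one_div_one_div]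

lemma E_dig {b : ℝ} (hb : Irrational b) (h0 : 0 < b) (h1 : b < 1) (n : ℕ) :
    E (dig b) n (T^[n] b) = b := by
  induction n with
  | zero => rfl
  | succ n ih => rw [E, ← orbit_eq hb h0 h1 n, ih]

/-- Closeness: if two sequences in `(0,1)` are generated by the same first `k` digits then they
are `1/(k+1)`-close. -/
lemma close (k : ℕ) : ∀ (u v : ℕ → ℝ) (d : ℕ → ℕ),
    (∀ i ≤ k, 0 < u i ∧ u i < 1) → (∀ i ≤ k, 0 < v i ∧ v i < 1) →
    (∀ i < k, 1 ≤ d i) →
    (∀ i < k, u i = 1 / ((d i : ℝ) + u (i+1))) → (∀ i < k, v i = 1 / ((d i : ℝ) + v (i+1))) →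
    |u 0 - v 0| ≤ 1 / ((k : ℝ) + 1) := by
  induction k with
  | zero =>
    intro u v d hu hv _ _ _
    have h1 := hu 0 le_rfl
    have h2 := hv 0 le_rfl
    rw [abs_le]
    constructor <;> norm_num <;> linarith [h1.1, h1.2, h2.1, h2.2]
  | succ k ih =>
    intro u v d hu hv hd hud hvd
    have h := ih (fun i => u (i+1)) (fun i => v (i+1)) (fun i => d (i+1))
      (fun i hi => hu (i+1) (by omega)) (fun i hi => hv (i+1) (by omega))
      (fun i hi => hd (i+1) (by omega)) (fun i hi => hud (i+1) (by omega))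
      (fun i hi => hvd (i+1) (by omega))
    simp only [zero_add] at h
    have hu1 := hu 1 (by omega)
    have hv1 := hv 1 (by omega)
    have hd0 : (1:ℝ) ≤ d 0 := by exact_mod_cast hd 0 (by omega)
    rw [hud 0 (by omega), hvd 0 (by omega)]
    simp only [zero_add]
    set δ := |u 1 - v 1| with hδ
    have hδ0 : 0 ≤ δ := abs_nonneg _
    have hle : δ ≤ u 1 + v 1 := by
      rw [hδ, abs_le]; constructor <;> linarith [hu1.1, hv1.1]
    have hU : 0 < (d 0 : ℝ) + u 1 := by linarith [hu1.1]
    have hV : 0 < (d 0 : ℝ) + v 1 := by linarith [hv1.1]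
    have e : 1 / ((d 0 : ℝ) + u 1) - 1 / ((d 0 : ℝ) + v 1) =
        -(u 1 - v 1) / (((d 0 : ℝ) + u 1) * ((d 0 : ℝ) + v 1)) := by
      field_simp
      ring
    rw [e, abs_div, abs_neg, abs_of_pos (mul_pos hU hV)]
    have h3 : 1 + δ ≤ ((d 0 : ℝ) + u 1) * ((d 0 : ℝ) + v 1) := by
      nlinarith [hu1.1, hv1.1, mul_pos hu1.1 hv1.1]
    calc δ / (((d 0 : ℝ) + u 1) * ((d 0 : ℝ) + v 1)) ≤ δ / (1 + δ) := by
          apply div_le_div_of_nonneg_left hδ0 (by linarith) h3
      _ ≤ 1 / (((k + 1 : ℕ) : ℝ) + 1) := by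
          rw [div_le_div_iff₀ (by linarith) (by positivity)]
          have hk : (0:ℝ) < (k:ℝ) + 1 := by positivity
          rw [le_div_iff₀ hk] at h
          push_cast
          nlinarith

/-- For every digit sequence there is a real sequence realizing it. -/
lemma exists_seq (a : ℕ → ℕ) (ha : ∀ i, 1 ≤ a i) :
    ∃ X : ℕ → ℝ, (∀ n, 0 < X n ∧ X n < 1) ∧ ∀ n, X n = 1 / ((a n : ℝ) + X (n+1)) := by
  have key : ∃ X : ℕ → ℝ, (∀ n, X n ∈ Set.Icc (0:ℝ) 1) ∧ ∀ n, X n * ((a n : ℝ) + X (n+1)) = 1 := by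
    let K : ℕ → Set (ℕ → ℝ) := fun N =>
      (Set.univ.pi fun _ => Set.Icc (0:ℝ) 1) ∩ ⋂ n, ⋂ (_ : n < N), {X | X n * ((a n : ℝ) + X (n+1)) = 1}
    have hclosed : ∀ N, IsClosed (K N) := by
      intro N
      refine IsClosed.inter (isClosed_set_pi fun _ _ => isClosed_Icc) ?_
      refine isClosed_iInter fun n => isClosed_iInter fun _ => ?_
      exact isClosed_eq ((continuous_apply n).mul (continuous_const.add (continuous_apply (n+1))))
        continuous_const
    have hne : ∀ N, ∀ a : ℕ → ℕ, (∀ i, 1 ≤ a i) → ∃ X : ℕ → ℝ, (∀ n, X n ∈ Set.Icc (0:ℝ) 1) ∧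
        ∀ n < N, X n * ((a n : ℝ) + X (n+1)) = 1 := by
      intro N
      induction N with
      | zero => intro a _; exact ⟨fun _ => 0, fun _ => ⟨le_rfl, zero_le_one⟩, fun n hn => by omega⟩
      | succ N ih =>
        intro a ha
        obtain ⟨Y, hY1, hY2⟩ := ih (fun n => a (n+1)) (fun i => ha (i+1))
        have h0 := hY1 0
        have ha0 : (1:ℝ) ≤ a 0 := by exact_mod_cast ha 0
        have hpos : 0 < (a 0 : ℝ) + Y 0 := by linarith [h0.1]
        refine ⟨fun n => match n with | 0 => 1 / ((a 0 : ℝ) + Y 0) | n+1 => Y n, ?_, ?_⟩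
        · intro n
          cases n with
          | zero =>
            refine ⟨by positivity, ?_⟩
            simp only
            rw [div_le_one hpos]; linarith [h0.1]
          | succ n => exact hY1 n
        · intro n hn
          cases n with
          | zero => field_simp
          | succ n => exact hY2 n (by omega)
    have hmono : ∀ N, K (N+1) ⊆ K N := by
      intro N X hX
      refine ⟨hX.1, ?_⟩
      have h2 := hX.2
      simp only [Set.mem_iInter, Set.mem_ofPred_eq] at h2 ⊢
      intro n hn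
      exact h2 n (by omega)
    have hne' : ∀ N, (K N).Nonempty := by
      intro N
      obtain ⟨X, h1, h2⟩ := hne N a ha
      refine ⟨X, fun n _ => h1 n, ?_⟩
      simp only [Set.mem_iInter, Set.mem_ofPred_eq]
      exact h2
    have hcomp : IsCompact (K 0) := by
      apply IsCompact.of_isClosed_subset _ (hclosed 0) Set.inter_subset_left
      exact isCompact_univ_pi fun _ => isCompact_Icc
    obtain ⟨X, hX⟩ := IsCompact.nonempty_iInter_of_sequence_nonempty_isCompact_isClosed K hmono hne'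
      hcomp hclosed
    rw [Set.mem_iInter] at hX
    refine ⟨X, fun n => (hX 0).1 n (Set.mem_univ n), fun n => ?_⟩
    have := (hX (n+1)).2
    simp only [Set.mem_iInter, Set.mem_ofPred_eq] at this
    exact this n (by omega)
  obtain ⟨X, h1, h2⟩ := key
  have hpos : ∀ n, 0 < X n := by
    intro n
    rcases lt_or_eq_of_le (h1 n).1 with h | h
    · exact h
    · have := h2 n
      rw [← h] at this
      norm_num at this
  have hlt : ∀ n, X n < 1 := by
    intro n
    have h := h2 n
    have ha' : (1:ℝ) ≤ a n := by exact_mod_cast ha n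
    by_contra hc
    push Not at hc
    nlinarith [hpos (n+1), hpos n]
  refine ⟨X, fun n => ⟨hpos n, hlt n⟩, fun n => ?_⟩
  have := h2 n
  have ha' : (1:ℝ) ≤ a n := by exact_mod_cast ha n
  have hp : 0 < (a n : ℝ) + X (n+1) := by linarith [hpos (n+1)]
  rw [eq_div_iff hp.ne']
  exact this

lemma seq_iter {a : ℕ → ℕ} {X : ℕ → ℝ} (hX : ∀ n, 0 < X n ∧ X n < 1)
    (h : ∀ n, X n = 1 / ((a n : ℝ) + X (n+1))) (n : ℕ) : T^[n] (X 0) = X n := by
  induction n with
  | zero => rfl
  | succ n ih =>
    rw [Function.iterate_succ_apply', ih, h n, T_eq_of _ (hX (n+1)).1.le (hX (n+1)).2]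

/-- a real all of whose Gauss iterates are in `(0,1)` is irrational -/
lemma irr_of_seq {x : ℝ} (h : ∀ n, 0 < T^[n] x ∧ T^[n] x < 1) : Irrational x := by
  -- descent on denominators
  have key : ∀ (N : ℕ) (p q : ℕ), p ≤ N → ∀ y : ℝ, y = (p:ℝ)/q → (∀ n, 0 < T^[n] y ∧ T^[n] y < 1) → False := by
    intro N
    induction N with
    | zero =>
      intro p q hp y hy hn
      have := (hn 0).1
      simp only [Function.iterate_zero, id_eq] at this
      have hp0 : p = 0 := by omega
      rw [hy, hp0] at this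
      simp at this
    | succ N ih =>
      intro p q hp y hy hn
      have h0 := hn 0
      simp only [Function.iterate_zero, id_eq] at h0
      have hq : q ≠ 0 := by
        rintro rfl
        rw [hy] at h0; simp at h0
      have hp0 : p ≠ 0 := by
        rintro rfl
        rw [hy] at h0; simp at h0
      have hqR : (0:ℝ) < q := by positivity
      have hpR : (0:ℝ) < p := by positivity
      have hT : T y = ((q % p : ℕ) : ℝ) / p := by
        unfold T
        rw [hy, one_div_div]
        rw [Int.fract_div_natCast_eq_div_natCast_mod]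
      apply ih (q % p) p _ (T y) hT
      · intro n
        have := hn (n+1)
        rwa [Function.iterate_succ_apply] at this
      · have := Nat.mod_lt q (Nat.pos_of_ne_zero hp0)
        omega
  rw [irrational_iff_ne_rational]
  intro a b hb hab
  have h0 := h 0
  simp only [Function.iterate_zero, id_eq] at h0
  -- x = a/b = |a|/|b|
  have hx : x = ((a.natAbs : ℕ) : ℝ) / ((b.natAbs : ℕ) : ℝ) := by
    have : x = |x| := (abs_of_pos h0.1).symm
    rw [this, hab, abs_div, Nat.cast_natAbs, Nat.cast_natAbs]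
    push_cast
    rfl
  exact key _ _ _ le_rfl x hx h

end Pool.Agent.W_MP_8d5d9c_nt
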