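import Pool.Agent.W_MP_8d5d9c_nt.Gauss

set_option autoImplicit false

open MeasureTheory Filter Topology

namespace Pool.Agent.W_MP_8d5d9c_nt

/-- number of `j < m` with `T^[j] x ≤ s` -/
noncomputable def cnt (m : ℕ) (s x : ℝ) : ℝ :=
  ∑ j ∈ Finset.range m, if T^[j] x ≤ s then (1:ℝ) else 0

lemma cnt_nonneg (m : ℕ) (s x : ℝ) : 0 ≤ cnt m s x := by
  unfold cnt
  apply Finset.sum_nonneg
  intro j _
  split_ifs <;> norm_num

lemma cnt_le (m : ℕ) (s x : ℝ) : cnt m s x ≤ m := by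
  unfold cnt
  calc ∑ j ∈ Finset.range m, (if T^[j] x ≤ s then (1:ℝ) else 0) ≤ ∑ j ∈ Finset.range m, 1 := by
        apply Finset.sum_le_sum
        intro j _
        split_ifs <;> norm_num
    _ = m := by simp

lemma ite_meas (j : ℕ) (s : ℝ) : Measurable (fun x => if T^[j] x ≤ s then (1:ℝ) else 0) := by
  apply Measurable.ite _ measurable_const measurable_const
  exact (T_meas.iterate j) measurableSet_Iic

lemma cnt_meas (m : ℕ) (s : ℝ) : Measurable (cnt m s) := by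
  unfold cnt
  exact Finset.measurable_sum _ fun j _ => ite_meas j s

lemma cnt_integral (m : ℕ) (s : ℝ) : ∫ x, cnt m s x ∂gm = m * G s := by
  unfold cnt
  rw [integral_finsetSum]
  · have : ∀ j ∈ Finset.range m, ∫ x, (if T^[j] x ≤ s then (1:ℝ) else 0) ∂gm = G s := by
      intro j _
      have e : (fun x => if T^[j] x ≤ s then (1:ℝ) else 0) = (T^[j] ⁻¹' Set.Iic s).indicator 1 := by
        ext x
        simp only [Set.indicator, Set.mem_preimage, Set.mem_Iic, Pi.one_apply]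
      rw [e, integral_indicator_one ((T_meas.iterate j) measurableSet_Iic), Measure.real, gm_iter,
        ENNReal.toReal_ofReal (G_nonneg s)]
    rw [Finset.sum_congr rfl this]
    simp
  · intro j _
    apply Integrable.of_bound (ite_meas j s).aestronglyMeasurable 1
    refine Eventually.of_forall fun x => ?_
    split_ifs <;> simp

noncomputable def Y (m : ℕ) (s x : ℝ) : ℝ := cnt m s x - m * G s

lemma Y_abs (m : ℕ) (s x : ℝ) : |Y m s x| ≤ m := by
  unfold Y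
  have h1 := cnt_nonneg m s x
  have h2 := cnt_le m s x
  have h3 : 0 ≤ (m:ℝ) * G s := mul_nonneg (by positivity) (G_nonneg s)
  have h4 : (m:ℝ) * G s ≤ m := by
    calc (m:ℝ) * G s ≤ m * 1 := mul_le_mul_of_nonneg_left (G_le_one s) (by positivity)
      _ = m := mul_one _
  rw [abs_le]
  constructor <;> linarith

lemma Y_meas (m : ℕ) (s : ℝ) : Measurable (Y m s) := (cnt_meas m s).sub_const _

lemma Y_int (m : ℕ) (s : ℝ) : Integrable (Y m s) gm :=
  Integrable.of_bound (Y_meas m s).aestronglyMeasurable m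
    (Eventually.of_forall fun x => by rw [Real.norm_eq_abs]; exact Y_abs m s x)

lemma Y_integral (m : ℕ) (s : ℝ) : ∫ x, Y m s x ∂gm = 0 := by
  unfold Y
  rw [integral_sub, cnt_integral]
  · simp
  · apply Integrable.of_bound (cnt_meas m s).aestronglyMeasurable m
    refine Eventually.of_forall fun x => ?_
    rw [Real.norm_eq_abs, abs_of_nonneg (cnt_nonneg _ _ _)]
    exact cnt_le m s x
  · exact integrable_const _

lemma Y_sq_le (m : ℕ) (s x : ℝ) : (Y m s x)^2 ≤ (m:ℝ)^2 := by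
  have h := Y_abs m s x
  rw [← sq_abs (Y m s x)]
  exact pow_le_pow_left₀ (abs_nonneg _) h 2

lemma Ysq_int (m : ℕ) (s : ℝ) : Integrable (fun x => (Y m s x)^2) gm :=
  Integrable.of_bound ((Y_meas m s).pow_const 2).aestronglyMeasurable ((m:ℝ)^2)
    (Eventually.of_forall fun x => by
      rw [Real.norm_eq_abs, abs_of_nonneg (sq_nonneg _)]; exact Y_sq_le m s x)

lemma Ysq_integral (m : ℕ) (s : ℝ) : ∫ x, (Y m s x)^2 ∂gm ≤ (m:ℝ)^2 := by
  calc ∫ x, (Y m s x)^2 ∂gm ≤ ∫ _x, (m:ℝ)^2 ∂gm :=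
        integral_mono (Ysq_int m s) (integrable_const _) (fun x => Y_sq_le m s x)
    _ = (m:ℝ)^2 := by simp

lemma term_int (m : ℕ) (s d : ℝ) : Integrable (fun x => (d + Y m s x)^2) gm := by
  have : (fun x => (d + Y m s x)^2) = fun x => (d^2 + 2 * d * Y m s x) + (Y m s x)^2 := by
    ext x; ring
  rw [this]
  exact ((integrable_const _).add ((Y_int m s).const_mul _)).add (Ysq_int m s)

lemma term_integral (m : ℕ) (s d : ℝ) : ∫ x, (d + Y m s x)^2 ∂gm ≤ d^2 + (m:ℝ)^2 := by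
  have h1 : Integrable (fun x => 2 * d * Y m s x) gm := (Y_int m s).const_mul _
  have h2 : Integrable (fun _x : ℝ => d^2) gm := integrable_const _
  have h3 : Integrable (fun x => d^2 + 2 * d * Y m s x) gm := h2.add h1
  have e1 : ∫ x, (d + Y m s x)^2 ∂gm =
      ∫ x, ((d^2 + 2 * d * Y m s x) + (Y m s x)^2) ∂gm := by
    congr 1; ext x; ring
  rw [e1, integral_add h3 (Ysq_int m s), integral_add h2 h1, integral_const_mul, Y_integral]
  have := Ysq_integral m s
  simp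
  exact this

noncomputable def w (k : ℕ) : ℝ := 1 / ((k:ℝ) + 1)^2

lemma w_pos (k : ℕ) : 0 < w k := by unfold w; positivity

lemma w_sum (n : ℕ) : ∑ k ∈ Finset.range n, w k ≤ 2 - 1 / (n:ℝ) := by
  induction n with
  | zero => norm_num
  | succ n ih =>
    rw [Finset.sum_range_succ]
    rcases Nat.eq_zero_or_pos n with h | h
    · subst h; norm_num [w]
    · have hn : (0:ℝ) < n := by exact_mod_cast h
      have h2 : w n ≤ 1 / (n:ℝ) - 1 / ((n:ℝ) + 1) := by
        unfold w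
        have : 1 / (n:ℝ) - 1 / ((n:ℝ) + 1) = 1 / ((n:ℝ) * ((n:ℝ) + 1)) := by field_simp; ring
        rw [this]
        apply one_div_le_one_div_of_le (by positivity)
        nlinarith
      push_cast
      linarith

lemma w_sum_le_two (n : ℕ) : ∑ k ∈ Finset.range n, w k ≤ 2 := by
  have := w_sum n
  have h : 0 ≤ 1 / (n:ℝ) := by positivity
  linarith

/-- Selection lemma. -/
lemma select (m : ℕ) (τ : ℕ → ℝ) (D : ℕ → ℝ) : ∃ x : ℝ, (Irrational x ∧ 0 < x ∧ x < 1) ∧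
    ∑ k ∈ Finset.range (m+1), w k * (D k + Y m (τ k) x)^2 ≤
      ∑ k ∈ Finset.range (m+1), w k * (D k)^2 + 2 * (m:ℝ)^2 := by
  have hae := gm_ae
  rw [ae_iff] at hae
  have hint : Integrable (fun x => ∑ k ∈ Finset.range (m+1), w k * (D k + Y m (τ k) x)^2) gm := by
    apply integrable_finsetSum
    intro k _
    exact (term_int m (τ k) (D k)).const_mul _
  obtain ⟨x, hx1, hx2⟩ := exists_notMem_null_le_integral hint hae
  refine ⟨x, ?_, ?_⟩
  · by_contra h
    exact hx1 h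
  · refine hx2.trans ?_
    rw [integral_finsetSum]
    · calc ∑ k ∈ Finset.range (m+1), ∫ x, w k * (D k + Y m (τ k) x)^2 ∂gm
          ≤ ∑ k ∈ Finset.range (m+1), (w k * (D k)^2 + w k * (m:ℝ)^2) := by
            apply Finset.sum_le_sum
            intro k _
            rw [integral_const_mul, ← mul_add]
            exact mul_le_mul_of_nonneg_left (term_integral m (τ k) (D k)) (w_pos k).le
        _ = ∑ k ∈ Finset.range (m+1), w k * (D k)^2 + (∑ k ∈ Finset.range (m+1), w k) * (m:ℝ)^2 := by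
            rw [Finset.sum_add_distrib, Finset.sum_mul]
        _ ≤ _ := by
            have h1 := w_sum_le_two (m+1)
            have h2 : (∑ k ∈ Finset.range (m+1), w k) * (m:ℝ)^2 ≤ 2 * (m:ℝ)^2 :=
              mul_le_mul_of_nonneg_right h1 (by positivity)
            linarith
    · intro k _
      exact (term_int m (τ k) (D k)).const_mul _

noncomputable def sel (τ : ℕ → ℝ) (m : ℕ) (D : ℕ → ℝ) : ℝ := Classical.choose (select m τ D)

/-- accumulated discrepancy after `m` blocks -/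
noncomputable def Dm (τ : ℕ → ℝ) : ℕ → ℕ → ℝ
  | 0 => fun _ => 0
  | m+1 => fun k => Dm τ m k + Y m (τ k) (sel τ m (Dm τ m))

/-- the chosen points -/
noncomputable def om (τ : ℕ → ℝ) (m : ℕ) : ℝ := sel τ m (Dm τ m)

lemma om_spec (τ : ℕ → ℝ) (m : ℕ) : Irrational (om τ m) ∧ 0 < om τ m ∧ om τ m < 1 :=
  (Classical.choose_spec (select m τ (Dm τ m))).1

lemma Dm_succ (τ : ℕ → ℝ) (m k : ℕ) : Dm τ (m+1) k = Dm τ m k + Y m (τ k) (om τ m) := rfl

lemma Dm_abs (τ : ℕ → ℝ) (m k : ℕ) : |Dm τ m k| ≤ (m:ℝ)^2 := by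
  induction m with
  | zero => simp [Dm]
  | succ m ih =>
    rw [Dm_succ]
    have h1 := abs_add_le (Dm τ m k) (Y m (τ k) (om τ m))
    have h2 := Y_abs m (τ k) (om τ m)
    push_cast
    have h3 : (0:ℝ) ≤ m := by positivity
    nlinarith

lemma Phi_le (τ : ℕ → ℝ) (m : ℕ) : ∑ k ∈ Finset.range m, w k * (Dm τ m k)^2 ≤ (m:ℝ)^3 := by
  induction m with
  | zero => simp
  | succ m ih =>
    have h1 := (Classical.choose_spec (select m τ (Dm τ m))).2
    have h2 : ∑ k ∈ Finset.range (m+1), w k * (Dm τ (m+1) k)^2 ≤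
      ∑ k ∈ Finset.range (m+1), w k * (Dm τ m k)^2 + 2 * (m:ℝ)^2 := h1
    rw [Finset.sum_range_succ (fun k => w k * (Dm τ m k)^2)] at h2
    have h3 : w m * (Dm τ m m)^2 ≤ (m:ℝ)^2 := by
      have h4 := Dm_abs τ m m
      have h5 : (Dm τ m m)^2 ≤ ((m:ℝ)^2)^2 := by
        rw [← sq_abs]; exact pow_le_pow_left₀ (abs_nonneg _) h4 2
      unfold w
      rw [one_div, inv_mul_le_iff₀ (by positivity)]
      have h6 : ((m:ℝ)^2)^2 ≤ ((m:ℝ) + 1)^2 * (m:ℝ)^2 := by
        have : (m:ℝ)^2 ≤ ((m:ℝ) + 1)^2 := pow_le_pow_left₀ (by positivity) (by linarith) 2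
        calc ((m:ℝ)^2)^2 = (m:ℝ)^2 * (m:ℝ)^2 := by ring
          _ ≤ ((m:ℝ) + 1)^2 * (m:ℝ)^2 := mul_le_mul_of_nonneg_right this (by positivity)
      linarith
    push_cast
    have h7 : (0:ℝ) ≤ m := by positivity
    nlinarith

lemma Dm_sq (τ : ℕ → ℝ) (m k : ℕ) (hk : k < m) : (Dm τ m k)^2 ≤ ((k:ℝ) + 1)^2 * (m:ℝ)^3 := by
  have h1 := Phi_le τ m
  have h2 : w k * (Dm τ m k)^2 ≤ ∑ k ∈ Finset.range m, w k * (Dm τ m k)^2 := by
    apply Finset.single_le_sum (f := fun k => w k * (Dm τ m k)^2)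
    · intro i _
      exact mul_nonneg (w_pos i).le (sq_nonneg _)
    · exact Finset.mem_range.mpr hk
  have h3 : w k * (Dm τ m k)^2 ≤ (m:ℝ)^3 := h2.trans h1
  unfold w at h3
  rw [one_div, inv_mul_le_iff₀ (by positivity)] at h3
  exact h3

lemma Dm_tendsto (τ : ℕ → ℝ) (k : ℕ) :
    Tendsto (fun m : ℕ => Dm τ m k / ((m:ℝ) * (m + 1) / 2)) atTop (𝓝 0) := by
  have hb : Tendsto (fun m : ℕ => (2 * ((k:ℝ) + 1)) / √(m:ℝ)) atTop (𝓝 0) :=
    tendsto_const_nhds.div_atTop (Real.tendsto_sqrt_atTop.comp tendsto_natCast_atTop_atTop)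
  apply squeeze_zero_norm' _ hb
  filter_upwards [eventually_gt_atTop k, eventually_gt_atTop 0] with m hm hm0
  have hmR : (0:ℝ) < m := by exact_mod_cast hm0
  have hs : 0 < √(m:ℝ) := Real.sqrt_pos.mpr hmR
  have hss : √(m:ℝ) * √(m:ℝ) = m := Real.mul_self_sqrt hmR.le
  have h1 := Dm_sq τ m k hm
  have h2 : |Dm τ m k| ≤ ((k:ℝ) + 1) * (m * √(m:ℝ)) := by
    apply abs_le_of_sq_le_sq _ (by positivity)
    calc (Dm τ m k)^2 ≤ ((k:ℝ) + 1)^2 * (m:ℝ)^3 := h1
      _ = (((k:ℝ) + 1) * (m * √(m:ℝ)))^2 := by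
        have : (((k:ℝ) + 1) * (m * √(m:ℝ)))^2 = ((k:ℝ) + 1)^2 * (m^2 * (√(m:ℝ) * √(m:ℝ))) := by ring
        rw [this, hss]; ring
  rw [Real.norm_eq_abs, abs_div, abs_of_pos (by positivity : (0:ℝ) < (m:ℝ) * (m + 1) / 2)]
  rw [div_le_div_iff₀ (by positivity) hs]
  calc |Dm τ m k| * √(m:ℝ) ≤ ((k:ℝ) + 1) * (m * √(m:ℝ)) * √(m:ℝ) :=
        mul_le_mul_of_nonneg_right h2 hs.le
    _ = ((k:ℝ) + 1) * (m * (√(m:ℝ) * √(m:ℝ))) := by ring
    _ = ((k:ℝ) + 1) * (m * m) := by rw [hss]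
    _ ≤ 2 * ((k:ℝ) + 1) * ((m:ℝ) * (m + 1) / 2) := by
        have : (0:ℝ) ≤ (k:ℝ) + 1 := by positivity
        nlinarith [mul_nonneg this hmR.le]

end Pool.Agent.W_MP_8d5d9c_nt
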